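import Mathlib

/-!
# Elliptic curves over number fields on the edge of absolute convergence: definitions

`K` is a number field and `W` a Weierstrass equation with coefficients in the ring of integers `𝓞 K`
of `K` and with discriminant `Δ ≠ 0`: an elliptic curve over `K`; every elliptic curve over `K` has
such an equation.
-/

set_option autoImplicit false

namespace Pool.Agent.N903.ED

open NumberField IsDedekindDomain

variable {K : Type} [Field K] [NumberField K]

/-- The prime `v` of `K` does not divide `6Δ`; the curve has good reduction at `v`. -/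
def IsGood (W : WeierstrassCurve (𝓞 K)) (v : HeightOneSpectrum (𝓞 K)) : Prop :=
  6 * W.Δ ∉ v.asIdeal

/-- The norm `Nv` of a prime of `K`. -/
noncomputable def norm (v : HeightOneSpectrum (𝓞 K)) : ℕ := Ideal.absNorm v.asIdeal

/-- The number `a_v = Nv + 1 - #E(𝔽_v)`: `Nv` minus the number of the affine points of the
reduction of `W` modulo `v`. -/
noncomputable def trace (W : WeierstrassCurve (𝓞 K)) (v : HeightOneSpectrum (𝓞 K)) : ℤ :=
  (norm v : ℤ) - (Nat.card {xy : (𝓞 K ⧸ v.asIdeal) × (𝓞 K ⧸ v.asIdeal) //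
    (W.map (Ideal.Quotient.mk v.asIdeal)).toAffine.Equation xy.1 xy.2} : ℤ)

/-- The Euler factor `(1 - a_v Nv^{-s} + Nv^{1-2s})⁻¹` at a prime of good reduction. -/
noncomputable def localFactor (W : WeierstrassCurve (𝓞 K)) (v : HeightOneSpectrum (𝓞 K))
    (s : ℂ) : ℂ :=
  (1 - (trace W v : ℂ) * (norm v : ℂ) ^ (-s) + (norm v : ℂ) ^ (1 - 2 * s))⁻¹

/-- The logarithm of the `L`-series, as the sum of the principal logarithms of the Euler factors at
the primes in a set `V` of primes of good reduction, for example all primes that do not divide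
`6Δ`.  For `Re s > 3/2` this is the branch of the logarithm of the `L`-series `L_V(E, s)` of `E`
with the Euler factors at the primes in `V` that tends to `0` as `s → ∞`. -/
noncomputable def logL (W : WeierstrassCurve (𝓞 K)) (V : Set (HeightOneSpectrum (𝓞 K)))
    (s : ℂ) : ℂ :=
  ∑' v : V, Complex.log (localFactor W v s)

/-- The coefficient `A(p) = ∑_{v ∈ V, Nv = p} a_v / √p` at a prime number `p`. -/
noncomputable def primeCoeff (W : WeierstrassCurve (𝓞 K)) (V : Set (HeightOneSpectrum (𝓞 K)))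
    (p : ℕ) : ℂ :=
  ∑' v : {v : HeightOneSpectrum (𝓞 K) // v ∈ V ∧ norm v = p}, (trace W v : ℂ) / (√(p : ℝ) : ℝ)

/-- The point `3/2 + iτ` of the edge of absolute convergence. -/
noncomputable def edgePoint (τ : ℝ) : ℂ := ((3 / 2 : ℝ) : ℂ) + (τ : ℂ) * Complex.I

/-- The angle `|s - s_τ| ≤ C (Re s - 3/2)` at `s_τ = 3/2 + iτ` in the half-plane `Re s > 3/2`. -/
def angle (τ C : ℝ) : Set ℂ :=
  {s : ℂ | (3 / 2 : ℝ) < s.re ∧ ‖s - edgePoint τ‖ ≤ C * (s.re - (3 / 2 : ℝ))}

/-- The combination `∑_j u_j log L_{V_j}(E_j, s + i h_j)` for elliptic curves `E_j` over number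
fields `K_j`, `j = 1, …, n`. -/
noncomputable def comb {n : ℕ} {K : Fin n → Type} [∀ j, Field (K j)] [∀ j, NumberField (K j)]
    (W : ∀ j, WeierstrassCurve (𝓞 (K j))) (V : ∀ j, Set (HeightOneSpectrum (𝓞 (K j))))
    (h : Fin n → ℝ) (u : Fin n → ℂ) (s : ℂ) : ℂ :=
  ∑ j, u j * logL (W j) (V j) (s + h j * Complex.I)

/-- The combination `∑_j u_j log L_{V_j}(E_j, s + i h_j)` is bounded in the half-plane
`Re s > 3/2` of absolute convergence. -/
def IsBoundedComb {n : ℕ} {K : Fin n → Type} [∀ j, Field (K j)] [∀ j, NumberField (K j)]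
    (W : ∀ j, WeierstrassCurve (𝓞 (K j))) (V : ∀ j, Set (HeightOneSpectrum (𝓞 (K j))))
    (h : Fin n → ℝ) (u : Fin n → ℂ) : Prop :=
  ∃ B : ℝ, ∀ s : ℂ, (3 / 2 : ℝ) < s.re → ‖comb W V h u s‖ ≤ B

end Pool.Agent.N903.ED
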