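import Mathlib

/-!
# Sums of vectors with unimodular coefficients

If `∑ ‖c_p‖² < ∞` and `∑ |⟨u, c_p⟩| = ∞` for every `u ≠ 0`, then the sums `∑_{N ≤ p < m} β_p c_p`
with unimodular `β_p` come near every vector.
-/

set_option autoImplicit false

namespace Pool.Agent.N903.ED

open Finset Filter Topology

theorem rounding_dir (α : ℂ) (h : ‖α‖ ≤ 1) :
    ∃ c : ℂ, ‖c‖ ≤ 1 ∧ ‖α + c‖ = 1 ∧ ‖α - c‖ = 1 := by
  by_cases h0 : α = 0
  · exact ⟨1, by simp, by simp [h0], by simp [h0]⟩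
  · have hn : 0 < ‖α‖ := norm_pos_iff.mpr h0
    have hs : √(1 - ‖α‖ ^ 2) ^ 2 = 1 - ‖α‖ ^ 2 := Real.sq_sqrt (by nlinarith)
    set w : ℝ := √(1 - ‖α‖ ^ 2) / ‖α‖ with hw
    have hw2 : w ^ 2 * ‖α‖ ^ 2 = 1 - ‖α‖ ^ 2 := by
      rw [hw, div_pow, hs]; field_simp
    have key : ∀ ε : ℝ, ε ^ 2 = 1 → ‖α * (1 + (ε * w : ℝ) * Complex.I)‖ = 1 := by
      intro ε hε
      have h1 : ‖α * (1 + (ε * w : ℝ) * Complex.I)‖ ^ 2 = 1 := by
        rw [norm_mul, mul_pow, Complex.sq_norm (1 + (ε * w : ℝ) * Complex.I)]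
        rw [show Complex.normSq (1 + (ε * w : ℝ) * Complex.I) = 1 + (ε * w) ^ 2 by
          simp [Complex.normSq_apply]; ring]
        rw [mul_pow, hε, one_mul, mul_add, mul_one, mul_comm (‖α‖ ^ 2) (w ^ 2), hw2]
        ring
      have h2 : (0 : ℝ) ≤ ‖α * (1 + (ε * w : ℝ) * Complex.I)‖ := norm_nonneg _
      nlinarith
    refine ⟨α * ((w : ℝ) * Complex.I), ?_, ?_, ?_⟩
    · have h1 : ‖α * ((w : ℝ) * Complex.I)‖ ^ 2 ≤ 1 := by
        rw [norm_mul, norm_mul, Complex.norm_I, mul_one, Complex.norm_real, mul_pow,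
          Real.norm_eq_abs, sq_abs, mul_comm, hw2]
        nlinarith
      nlinarith [norm_nonneg (α * ((w : ℝ) * Complex.I))]
    · have := key 1 (by norm_num)
      rw [one_mul] at this
      rw [← this]; congr 1; ring
    · have := key (-1) (by norm_num)
      rw [← this]; congr 1; push_cast; ring

section
variable {E : Type*} [NormedAddCommGroup E] [InnerProductSpace ℂ E]

/-- Rounding of coefficients in the unit disc to unimodular ones. -/
lemma round_all (c : ℕ → E) (α : ℕ → ℂ) (hα : ∀ i, ‖α i‖ ≤ 1) (F : Finset ℕ) :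
    ∃ β : ℕ → ℂ, (∀ i, ‖β i‖ = 1) ∧
      ‖∑ i ∈ F, (β i - α i) • c i‖ ^ 2 ≤ ∑ i ∈ F, ‖c i‖ ^ 2 := by
  classical
  induction F using Finset.induction_on with
  | empty => exact ⟨fun _ => 1, by simp, by simp⟩
  | insert m F hm ih =>
    obtain ⟨β, hβ, hle⟩ := ih
    obtain ⟨d, hd1, hdp, hdm⟩ := rounding_dir (α m) (hα m)
    set v : E := ∑ i ∈ F, (β i - α i) • c i with hv
    have hpar := parallelogram_law_with_norm ℂ v (d • c m)
    have hd2 : ‖d • c m‖ ≤ ‖c m‖ := by
      rw [norm_smul]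
      exact mul_le_of_le_one_left (norm_nonneg _) hd1
    have hd3 : ‖d • c m‖ ^ 2 ≤ ‖c m‖ ^ 2 := pow_le_pow_left₀ (norm_nonneg _) hd2 2
    have hfin : ∀ b : ℂ, ‖b‖ = 1 → ‖v + (b - α m) • c m‖ ^ 2 ≤ ‖v‖ ^ 2 + ‖c m‖ ^ 2 →
        ∃ β : ℕ → ℂ, (∀ i, ‖β i‖ = 1) ∧
          ‖∑ i ∈ insert m F, (β i - α i) • c i‖ ^ 2 ≤ ∑ i ∈ insert m F, ‖c i‖ ^ 2 := by
      intro b hb hle'
      refine ⟨Function.update β m b, ?_, ?_⟩
      · intro i
        by_cases h : i = m
        · rw [h, Function.update_self]; exact hb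
        · rw [Function.update_of_ne h]; exact hβ i
      · have e : ∑ i ∈ insert m F, (Function.update β m b i - α i) • c i =
            v + (b - α m) • c m := by
          rw [Finset.sum_insert hm, Function.update_self, add_comm]
          congr 1
          apply Finset.sum_congr rfl
          intro i hi
          have : i ≠ m := fun h => hm (h ▸ hi)
          rw [Function.update_of_ne this]
        rw [e, Finset.sum_insert hm]
        linarith
    by_cases hcase : ‖v + d • c m‖ ^ 2 ≤ ‖v‖ ^ 2 + ‖c m‖ ^ 2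
    · exact hfin (α m + d) hdp (by rw [add_sub_cancel_left]; exact hcase)
    · refine hfin (α m - d) hdm ?_
      push Not at hcase
      have e : v + (α m - d - α m) • c m = v - d • c m := by
        rw [show α m - d - α m = -d by ring, neg_smul, sub_eq_add_neg]
      rw [e]
      nlinarith

/-- The sums over `[N, m)` with coefficients in the unit disc. -/
def KS (c : ℕ → E) (N m : ℕ) : Set E :=
  {x | ∃ α : ℕ → ℂ, (∀ p, ‖α p‖ ≤ 1) ∧ x = ∑ p ∈ Ico N m, α p • c p}

lemma KS_mono (c : ℕ → E) (N : ℕ) : Monotone (KS c N) := by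
  rintro m m' hm x ⟨α, hα, rfl⟩
  refine ⟨fun p => if p < m then α p else 0, fun p => ?_, ?_⟩
  · beta_reduce
    split_ifs
    · exact hα p
    · simp
  · have h1 : Ico N m ⊆ Ico N m' := Ico_subset_Ico_right hm
    rw [← sum_subset h1 (f := fun p => (if p < m then α p else 0) • c p)]
    · refine sum_congr rfl fun p hp => ?_
      rw [if_pos (mem_Ico.1 hp).2]
    · intro p hp hp'
      have : ¬ p < m := fun h => hp' (mem_Ico.2 ⟨(mem_Ico.1 hp).1, h⟩)
      rw [if_neg this, zero_smul]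

lemma KS_convex (c : ℕ → E) (N m : ℕ) : Convex ℝ (KS c N m) := by
  rintro x ⟨α, hα, rfl⟩ y ⟨β, hβ, rfl⟩ s t hs ht hst
  refine ⟨fun p => (s : ℂ) * α p + (t : ℂ) * β p, fun p => ?_, ?_⟩
  · refine (norm_add_le _ _).trans ?_
    rw [norm_mul, norm_mul, Complex.norm_real, Complex.norm_real, Real.norm_of_nonneg hs,
      Real.norm_of_nonneg ht]
    nlinarith [hα p, hβ p, norm_nonneg (α p), norm_nonneg (β p)]
  · rw [smul_sum, smul_sum, ← sum_add_distrib]
    refine sum_congr rfl fun p _ => ?_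
    rw [add_smul, mul_smul, mul_smul, Complex.coe_smul, Complex.coe_smul]

end

variable {n : ℕ}

/-- The union of the sets `KS` is dense. -/
lemma dense_KS (c : ℕ → EuclideanSpace ℂ (Fin n))
    (hdiv : ∀ u : Fin n → ℂ, u ≠ 0 → ¬ Summable fun p : ℕ => ‖∑ j, u j * c p j‖) (N : ℕ)
    (w : EuclideanSpace ℂ (Fin n)) : w ∈ closure (⋃ m, KS c N m) := by
  by_contra hw
  have hconv : Convex ℝ (closure (⋃ m, KS c N m)) :=
    (Directed.convex_iUnion (KS_mono c N).directed_le fun m => KS_convex c N m).closure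
  obtain ⟨f, s, hs, hfw⟩ := RCLike.geometric_hahn_banach_closed_point (𝕜 := ℂ) hconv
    isClosed_closure hw
  have hfc : ∀ x : EuclideanSpace ℂ (Fin n),
      f x = ∑ j, f (EuclideanSpace.single j 1) * x j := by
    intro x
    have h1 : x = ∑ j, x j • EuclideanSpace.single j (1 : ℂ) := by
      ext i
      simp [Finset.sum_apply, Pi.single_apply]
    conv_lhs => rw [h1]
    rw [map_sum]
    refine sum_congr rfl fun j _ => ?_
    rw [map_smul, smul_eq_mul, mul_comm]
  have hbound : ∀ m, ∑ p ∈ Ico N m, ‖f (c p)‖ ≤ s := by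
    intro m
    set α : ℕ → ℂ := fun p => (starRingEnd ℂ) (f (c p)) / (‖f (c p)‖ : ℂ) with hα
    have hα1 : ∀ p, ‖α p‖ ≤ 1 := by
      intro p
      rw [hα]
      simp only [norm_div, RCLike.norm_conj, Complex.norm_real, norm_norm]
      exact div_self_le_one _
    have h1 : (∑ p ∈ Ico N m, α p • c p) ∈ closure (⋃ m, KS c N m) :=
      subset_closure (Set.mem_iUnion.2 ⟨m, α, hα1, rfl⟩)
    have h2 := hs _ h1
    have h3 : f (∑ p ∈ Ico N m, α p • c p) = ((∑ p ∈ Ico N m, ‖f (c p)‖ : ℝ) : ℂ) := by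
      rw [map_sum, Complex.ofReal_sum]
      refine sum_congr rfl fun p _ => ?_
      rw [map_smul, smul_eq_mul, hα]
      simp only
      by_cases h0 : f (c p) = 0
      · simp [h0]
      · have h4 : (‖f (c p)‖ : ℂ) ≠ 0 := by exact_mod_cast norm_ne_zero_iff.2 h0
        rw [div_mul_eq_mul_div, mul_comm, Complex.mul_conj', pow_two, mul_div_assoc,
          div_self h4, mul_one]
    rw [h3] at h2
    simp only [RCLike.re_eq_complex_re, Complex.ofReal_re] at h2
    exact h2.le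
  have hsum : Summable fun p : ℕ => ‖f (c p)‖ := by
    rw [← summable_nat_add_iff N]
    refine summable_of_sum_range_le (c := s) (fun p => norm_nonneg _) fun k => ?_
    have h1 := hbound (N + k)
    rw [sum_Ico_eq_sum_range] at h1
    simp only [Nat.add_sub_cancel_left] at h1
    simpa [add_comm] using h1
  by_cases hu : (fun j => f (EuclideanSpace.single j (1 : ℂ))) = 0
  · have h1 : ∀ x, f x = 0 := by
      intro x
      rw [hfc x]
      refine sum_eq_zero fun j _ => ?_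
      have := congrFun hu j
      simp only [Pi.zero_apply] at this
      rw [this, zero_mul]
    have h2 := hs 0 (subset_closure (Set.mem_iUnion.2 ⟨N, fun _ => 0, by simp, by simp⟩))
    rw [h1] at h2 hfw
    exact absurd (h2.trans hfw) (lt_irrefl _)
  · refine hdiv _ hu ?_
    refine hsum.congr fun p => ?_
    rw [hfc (c p)]

/-- **Density of the sums with unimodular coefficients.** -/
theorem dense_unimodular (c : ℕ → EuclideanSpace ℂ (Fin n))
    (hdiv : ∀ u : Fin n → ℂ, u ≠ 0 → ¬ Summable fun p : ℕ => ‖∑ j, u j * c p j‖)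
    (hsq : Summable fun p : ℕ => ‖c p‖ ^ 2) (N₀ : ℕ) (w : EuclideanSpace ℂ (Fin n)) (ε : ℝ)
    (hε : 0 < ε) :
    ∃ m₀, ∀ m, m₀ ≤ m → ∃ β : ℕ → ℂ, (∀ p, ‖β p‖ = 1) ∧
      ‖∑ p ∈ Ico N₀ m, β p • c p - w‖ < ε := by
  have htail : Tendsto (fun N => ∑' p, ‖c (p + N)‖ ^ 2) atTop (𝓝 0) :=
    tendsto_sum_nat_add fun p => ‖c p‖ ^ 2
  have hε2 : 0 < (ε / 2) ^ 2 := by positivity
  obtain ⟨N, hN, hNN⟩ := ((htail.eventually (gt_mem_nhds hε2)).and (eventually_ge_atTop N₀)).exists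
  set w' := w - ∑ p ∈ Ico N₀ N, c p with hw'
  obtain ⟨x, hx, hxw⟩ := Metric.mem_closure_iff.1 (dense_KS c hdiv N w') (ε / 2) (by positivity)
  obtain ⟨m₀, hm₀⟩ := Set.mem_iUnion.1 hx
  refine ⟨max m₀ N, fun m hm => ?_⟩
  obtain ⟨α, hα, hxα⟩ := KS_mono c N ((le_max_left _ _).trans hm) hm₀
  obtain ⟨β, hβ, hle⟩ := round_all c α hα (Ico N m)
  refine ⟨fun p => if p < N then 1 else β p, fun p => ?_, ?_⟩
  · beta_reduce
    split_ifs
    · simp
    · exact hβ p
  · have h1 : ∑ p ∈ Ico N₀ m, (if p < N then (1 : ℂ) else β p) • c p =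
        ∑ p ∈ Ico N₀ N, c p + ∑ p ∈ Ico N m, β p • c p := by
      rw [← sum_Ico_consecutive _ hNN ((le_max_right _ _).trans hm)]
      congr 1
      · refine sum_congr rfl fun p hp => ?_
        rw [if_pos (mem_Ico.1 hp).2, one_smul]
      · refine sum_congr rfl fun p hp => ?_
        rw [if_neg (by have := (mem_Ico.1 hp).1; omega)]
    have h2 : ∑ p ∈ Ico N m, ‖c p‖ ^ 2 ≤ ∑' p, ‖c (p + N)‖ ^ 2 := by
      rw [sum_Ico_eq_sum_range]
      have h3 : ∀ k, ‖c (N + k)‖ ^ 2 = ‖c (k + N)‖ ^ 2 := fun k => by rw [add_comm]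
      simp only [h3]
      exact ((summable_nat_add_iff N).2 hsq).sum_le_tsum _ fun _ _ => by positivity
    have h3 : ‖∑ i ∈ Ico N m, (β i - α i) • c i‖ < ε / 2 := by
      refine lt_of_pow_lt_pow_left₀ 2 (by positivity) ?_
      exact (hle.trans h2).trans_lt hN
    have h4 : ∑ p ∈ Ico N₀ m, (if p < N then (1 : ℂ) else β p) • c p - w =
        ∑ i ∈ Ico N m, (β i - α i) • c i - (w' - x) := by
      rw [h1, hxα, hw']
      simp only [sub_smul, sum_sub_distrib]
      abel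
    rw [h4]
    refine (norm_sub_le _ _).trans_lt ?_
    rw [dist_eq_norm] at hxw
    linarith

end Pool.Agent.N903.ED
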