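import Pool.Agent.N903.ED.Val
import Pool.Agent.W350.EdgeV

/-!
# The logarithm of an Euler product over a set of places
-/

set_option autoImplicit false
set_option linter.unusedSectionVars false

namespace Pool.Agent.N903.ED

open Finset Filter Topology MeasureTheory Pool.Agent.W350.Edge
open scoped ENNReal

lemma ph_one (τ : ℝ) : ph 1 τ = 1 := by
  unfold ph
  simp

lemma ph_mul (m k : ℕ) (hm : 1 ≤ m) (hk : 1 ≤ k) (τ : ℝ) : ph (m * k) τ = ph m τ * ph k τ := by
  unfold ph
  have hm0 : (m : ℝ) ≠ 0 := by exact_mod_cast (by omega : m ≠ 0)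
  have hk0 : (k : ℝ) ≠ 0 := by exact_mod_cast (by omega : k ≠ 0)
  rw [← Complex.exp_add]
  congr 1
  rw [Nat.cast_mul, Real.log_mul hm0 hk0]
  push_cast
  ring

/-- The phases of all positive integers are continuous. -/
lemma tendsto_ph_nat (τ₀ : ℝ) : ∀ m : ℕ, 1 ≤ m → Tendsto (ph m) (PF τ₀) (𝓝 (ph m τ₀)) := by
  intro m
  induction m using Nat.recOnMul with
  | zero => intro h; omega
  | one =>
    intro _
    simp only [funext (fun τ => ph_one τ)]
    exact tendsto_const_nhds
  | prime p hp => intro _; exact tendsto_ph τ₀ p hp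
  | mul a b iha ihb =>
    intro h
    have ha : 1 ≤ a := Nat.one_le_iff_ne_zero.2 fun h0 => by simp [h0] at h
    have hb : 1 ≤ b := Nat.one_le_iff_ne_zero.2 fun h0 => by simp [h0] at h
    have h1 : ph (a * b) = fun τ => ph a τ * ph b τ := funext fun τ => ph_mul a b ha hb τ
    rw [h1]
    exact (iha ha).mul (ihb hb)

variable {V : Type*} (N : V → ℕ)

/-- The main term of a place. -/
noncomputable def mt (a : V → ℂ) (z : ℂ) (v : V) : ℂ :=
  a v / N v * Complex.exp (-z * Real.log (N v))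

/-- The coefficients at the primes. -/
noncomputable def cf (a : V → ℂ) (p : ℕ) : ℂ :=
  if p.Prime then Pool.Agent.W350.EdgeV.grp (N := N) a p else 0

/-- The remainder. -/
noncomputable def rm (a : V → ℂ) (ln : V → ℂ → ℂ) (z : ℂ) : ℂ :=
  ∑' v, ((ln v z - mt N a z v) + if (N v).Prime then 0 else mt N a z v)

variable {N}

lemma norm_mt (hN : ∀ v, 1 ≤ N v) (a : V → ℂ) (z : ℂ) (v : V) :
    ‖mt N a z v‖ = ‖a v‖ / N v * (N v : ℝ) ^ (-z.re) := by
  unfold mt
  rw [norm_mul, norm_div, Complex.norm_natCast, norm_exp_log z (hN v)]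

lemma norm_mt_le (hN : ∀ v, 1 ≤ N v) (a : V → ℂ) (D : ℝ) (ha : ∀ v, ‖a v‖ ≤ D) (z : ℂ)
    (hz : 0 ≤ z.re) (v : V) : ‖mt N a z v‖ ≤ D * (1 / N v) := by
  have hD : 0 ≤ D := (norm_nonneg _).trans (ha v)
  rw [norm_mt hN]
  have h1 : (N v : ℝ) ^ (-z.re) ≤ 1 :=
    Real.rpow_le_one_of_one_le_of_nonpos (by exact_mod_cast hN v) (by linarith)
  have h2 : ‖a v‖ / N v ≤ D / N v := div_le_div_of_nonneg_right (ha v) (Nat.cast_nonneg _)
  calc ‖a v‖ / N v * (N v : ℝ) ^ (-z.re) ≤ D / N v * 1 :=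
        mul_le_mul h2 h1 (by positivity) (by positivity)
    _ = D * (1 / N v) := by ring

section
variable (hN : ∀ v, 1 ≤ N v) (hfin : ∀ x : ℕ, {v | N v < x}.Finite)
    (hpow : ∀ r : ℝ, 1 < r → Summable fun v => (N v : ℝ) ^ (-r))
    (hlow : Summable fun v => if (N v).Prime then (0 : ℝ) else 1 / N v)
    (a : V → ℂ) (D : ℝ) (ha : ∀ v, ‖a v‖ ≤ D) (ln : V → ℂ → ℂ) (C : ℝ)
    (hb : ∀ v z, 0 ≤ z.re → ‖ln v z - mt N a z v‖ ≤ C * (N v : ℝ) ^ (-2 : ℝ))
include hN hpow hlow ha hb

lemma rm_bound (v : V) (z : ℂ) (hz : 0 ≤ z.re) :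
    ‖(ln v z - mt N a z v) + (if (N v).Prime then 0 else mt N a z v)‖ ≤
      C * (N v : ℝ) ^ (-2 : ℝ) + D * (if (N v).Prime then (0 : ℝ) else 1 / N v) := by
  refine (norm_add_le _ _).trans (add_le_add (hb v z hz) ?_)
  split_ifs
  · simp
  · exact norm_mt_le hN a D ha z hz v

lemma rm_summable : Summable fun v => C * (N v : ℝ) ^ (-2 : ℝ) +
    D * (if (N v).Prime then (0 : ℝ) else 1 / N v) :=
  ((hpow 2 one_lt_two).mul_left C).add (hlow.mul_left D)

lemma rm_norm (z : ℂ) (hz : 0 ≤ z.re) : ‖rm N a ln z‖ ≤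
    ∑' v, (C * (N v : ℝ) ^ (-2 : ℝ) + D * (if (N v).Prime then (0 : ℝ) else 1 / N v)) :=
  tsum_of_norm_bounded (rm_summable hN hpow hlow a D ha ln C hb).hasSum
    fun v => rm_bound hN hpow hlow a D ha ln C hb v z hz

lemma rm_continuousOn (hc : ∀ v, ContinuousOn (ln v) {z | 0 ≤ z.re}) :
    ContinuousOn (rm N a ln) {z | 0 ≤ z.re} := by
  unfold rm
  refine continuousOn_tsum (fun v => ?_) (rm_summable hN hpow hlow a D ha ln C hb)
    fun v z hz => rm_bound hN hpow hlow a D ha ln C hb v z hz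
  have hm : Continuous fun z => mt N a z v := by
    unfold mt
    fun_prop
  refine ((hc v).sub hm.continuousOn).add ?_
  split_ifs
  · exact continuousOn_const
  · exact hm.continuousOn

lemma rm_phase (hp : ∀ v (τ₀ : ℝ), Tendsto (fun τ : ℝ => ln v (τ * Complex.I)) (PF τ₀)
      (𝓝 (ln v (τ₀ * Complex.I)))) (τ₀ : ℝ) :
    Tendsto (fun τ : ℝ => rm N a ln (τ * Complex.I)) (PF τ₀) (𝓝 (rm N a ln (τ₀ * Complex.I))) := by
  unfold rm
  have hm : ∀ v, Tendsto (fun τ : ℝ => mt N a (τ * Complex.I) v) (PF τ₀)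
      (𝓝 (mt N a (τ₀ * Complex.I) v)) := by
    intro v
    have h1 : ∀ τ : ℝ, mt N a (τ * Complex.I) v = a v / N v * ph (N v) τ := by
      intro τ
      unfold mt ph
      congr 2
      ring
    simp only [h1]
    exact (tendsto_ph_nat τ₀ (N v) (hN v)).const_mul _
  refine tendsto_tsum_of_dominated_convergence (rm_summable hN hpow hlow a D ha ln C hb)
    (fun v => ?_) (Eventually.of_forall fun τ v =>
      rm_bound hN hpow hlow a D ha ln C hb v (τ * Complex.I) (by simp))
  refine ((hp v τ₀).sub (hm v)).add ?_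
  split_ifs
  · exact tendsto_const_nhds
  · exact hm v

include hfin in
lemma log_eq (z : ℂ) (hz : 0 < z.re) :
    ∑' v, ln v z = (∑' p, ct (cf N a) z p) + rm N a ln z := by
  classical
  have hs1 : Summable fun v => (ln v z - mt N a z v) + (if (N v).Prime then 0 else mt N a z v) :=
    Summable.of_norm_bounded (rm_summable hN hpow hlow a D ha ln C hb)
      fun v => rm_bound hN hpow hlow a D ha ln C hb v z hz.le
  set f : V → ℂ := fun v => if (N v).Prime then mt N a z v else 0 with hf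
  have hmt : Summable fun v => mt N a z v := by
    refine Summable.of_norm_bounded ((hpow (1 + z.re) (by linarith)).mul_left D) fun v => ?_
    have hp0 : (0 : ℝ) < N v := by exact_mod_cast hN v
    rw [norm_mt hN]
    have h4 : (N v : ℝ) ^ (-(1 + z.re)) = (1 / N v) * (N v : ℝ) ^ (-z.re) := by
      rw [one_div, ← Real.rpow_neg_one, ← Real.rpow_add hp0]
      congr 1
      ring
    rw [h4, ← mul_assoc, mul_one_div]
    gcongr
    exact ha v
  have hs2 : Summable f := by
    refine Summable.of_norm_bounded hmt.norm fun v => ?_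
    rw [hf]
    simp only
    split_ifs
    · exact le_rfl
    · rw [norm_zero]
      exact norm_nonneg _
  have h1 : ∀ v, ln v z = f v +
      ((ln v z - mt N a z v) + (if (N v).Prime then 0 else mt N a z v)) := by
    intro v
    rw [hf]
    simp only
    split_ifs <;> ring
  have h2 : ∑' v, ln v z = ∑' v, f v + rm N a ln z := by
    unfold rm
    rw [← hs2.tsum_add hs1]
    exact tsum_congr h1
  rw [h2]
  congr 1
  have h3 := hs2.hasSum.tsum_fiberwise N
  rw [← h3.tsum_eq]
  refine tsum_congr fun p => ?_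
  have := (Pool.Agent.W350.EdgeV.fiber_finite hfin p).fintype
  unfold ct cf Pool.Agent.W350.EdgeV.grp
  split_ifs with hp
  · rw [← tsum_div_const, ← tsum_mul_right]
    refine tsum_congr fun v => ?_
    have h4 : N v = p := v.2
    rw [hf]
    simp only
    unfold mt
    rw [h4, if_pos hp]
  · have : ∀ v : N ⁻¹' {p}, f v = 0 := by
      intro v
      have h4 : N v = p := v.2
      rw [hf]
      simp only
      rw [h4, if_neg hp]
    simp [this]

end

end Pool.Agent.N903.ED
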