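import Pool.Agent.N903.ED.Defs
import Pool.Agent.N903.ED.Sys
import Pool.Agent.W350.EdgeEC

/-!
# Elliptic curves over number fields as systems
-/

set_option autoImplicit false
set_option linter.unusedSectionVars false

namespace Pool.Agent.N903.ED

open Filter Topology NumberField IsDedekindDomain Pool.Agent.H921R2.TatePole
  Pool.Agent.H341R2 Pool.Agent.H341R2.EC Pool.Agent.W350.Edge Pool.Agent.W350.EdgeV
  Pool.Agent.W350.EdgeNF Pool.Agent.W350.EdgeEC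

variable {K : Type} [Field K] [NumberField K]

lemma trace_aff (W : WeierstrassCurve (𝓞 K)) (v : HeightOneSpectrum (𝓞 K)) :
    trace W v = (nm v : ℤ) - (aff (red v W) : ℤ) := by
  have h1 : (Nat.card {xy : (𝓞 K ⧸ v.asIdeal) × (𝓞 K ⧸ v.asIdeal) //
      (W.map (Ideal.Quotient.mk v.asIdeal)).toAffine.Equation xy.1 xy.2}) = aff (red v W) := by
    unfold aff red
    refine Nat.card_congr (Equiv.subtypeEquivRight fun q => ?_)
    exact WeierstrassCurve.Affine.equation_iff ..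
  unfold trace
  rw [h1]
  rfl

lemma good_six {W : WeierstrassCurve (𝓞 K)} {v : HeightOneSpectrum (𝓞 K)} (h : IsGood W v) :
    (6 : 𝓞 K) ∉ v.asIdeal ∧ W.Δ ∉ v.asIdeal :=
  ⟨fun h6 => h (Ideal.mul_mem_right _ _ h6), fun hD => h (Ideal.mul_mem_left _ _ hD)⟩

/-- Hasse's bound. -/
lemma hasse {W : WeierstrassCurve (𝓞 K)} {v : HeightOneSpectrum (𝓞 K)} (h : IsGood W v) :
    |(trace W v : ℝ)| ≤ 2 * Real.sqrt (nm v) := by
  obtain ⟨h6, hD⟩ := good_six h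
  have h6' : (6 : 𝓞 K ⧸ v.asIdeal) ≠ 0 := by
    have := mk_ne h6
    rwa [map_ofNat] at this
  have hrel : (1728 : 𝓞 K) * W.Δ = W.c₄ ^ 3 - W.c₆ ^ 2 := W.c_relation
  have hne : (W.c₄ : 𝓞 K) ^ 3 - W.c₆ ^ 2 ∉ v.asIdeal := by
    rw [← hrel]
    intro hmem
    have hp := v.isPrime
    rcases hp.mem_or_mem hmem with h1 | h1
    · have h2 : (1728 : 𝓞 K) = 6 ^ 3 * 8 := by norm_num
      rw [h2] at h1
      rcases hp.mem_or_mem h1 with h3 | h3
      · exact h6 (hp.mem_of_pow_mem _ h3)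
      · have h4 : (8 : 𝓞 K) = 2 ^ 3 := by norm_num
        rw [h4] at h3
        have h5 := hp.mem_of_pow_mem _ h3
        have h7 : (6 : 𝓞 K) = 2 * 3 := by norm_num
        exact h6 (h7 ▸ Ideal.mul_mem_right _ _ h5)
    · exact hD h1
  have h1 : trace W v = -csumv W.c₄ W.c₆ v := by
    rw [trace_aff, aff_eq_short h6', red, WeierstrassCurve.map_c₄, WeierstrassCurve.map_c₆,
      short_eq h6', card_v]
    unfold csumv csum
    ring
  rw [h1]
  push_cast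
  rw [abs_neg]
  exact csumv_bound h6 hne

open Classical in
/-- The normalised traces. -/
noncomputable def an' (W : WeierstrassCurve (𝓞 K)) (V : Set (HeightOneSpectrum (𝓞 K)))
    (v : HeightOneSpectrum (𝓞 K)) : ℂ :=
  if v ∈ V then (trace W v : ℂ) * (((Real.sqrt (nm v) : ℝ) : ℂ))⁻¹ else 0

open Classical in
/-- The logarithms of the Euler factors. -/
noncomputable def ln' (W : WeierstrassCurve (𝓞 K)) (V : Set (HeightOneSpectrum (𝓞 K)))
    (v : HeightOneSpectrum (𝓞 K)) (z : ℂ) : ℂ :=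
  if v ∈ V then Complex.log (localFactor W v (((3 / 2 : ℝ) : ℂ) + z)) else 0

/-- `1 - 1 / L_v`. -/
noncomputable def u1 (W : WeierstrassCurve (𝓞 K)) (v : HeightOneSpectrum (𝓞 K)) (z : ℂ) : ℂ :=
  mt nm (fun v => (trace W v : ℂ) * (((Real.sqrt (nm v) : ℝ) : ℂ))⁻¹) z v -
    (nm v : ℂ) ^ (1 - 2 * (((3 / 2 : ℝ) : ℂ) + z))

lemma norm_an' {W : WeierstrassCurve (𝓞 K)} {V : Set (HeightOneSpectrum (𝓞 K))}
    (hV : ∀ v ∈ V, IsGood W v) (v : HeightOneSpectrum (𝓞 K)) : ‖an' W V v‖ ≤ 2 := by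
  unfold an'
  split_ifs with h
  · have hs : 0 < Real.sqrt (nm v) := Real.sqrt_pos.2 (nm_pos v)
    rw [norm_mul, Complex.norm_intCast, norm_inv, Complex.norm_real,
      Real.norm_of_nonneg hs.le, ← div_eq_mul_inv, div_le_iff₀ hs]
    exact hasse (hV v h)
  · simp

lemma mt_main (W : WeierstrassCurve (𝓞 K)) (v : HeightOneSpectrum (𝓞 K)) (z : ℂ) :
    mt nm (fun v => (trace W v : ℂ) * (((Real.sqrt (nm v) : ℝ) : ℂ))⁻¹) z v =
      (trace W v : ℂ) * (nm v : ℂ) ^ (-(((3 / 2 : ℝ) : ℂ) + z)) := by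
  have h0 := nm_pos v
  have hlog : Complex.log (nm v : ℂ) = ((Real.log (nm v) : ℝ) : ℂ) := by
    rw [← Complex.ofReal_natCast, Complex.ofReal_log h0.le]
  have h1 : (nm v : ℂ) = Complex.exp ((Real.log (nm v) : ℝ) : ℂ) := by
    rw [← Complex.ofReal_exp, Real.exp_log h0, Complex.ofReal_natCast]
  have h2 : ((Real.sqrt (nm v) : ℝ) : ℂ) = Complex.exp ((Real.log (nm v) / 2 : ℝ) : ℂ) := by
    rw [← Complex.ofReal_exp, Real.sqrt_eq_rpow, Real.rpow_def_of_pos h0]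
    congr 2
    ring
  unfold mt
  beta_reduce
  rw [Complex.cpow_def_of_ne_zero (nmC_ne v), hlog, h2, ← Complex.exp_neg]
  have h3 : (trace W v : ℂ) * Complex.exp (-((Real.log (nm v) / 2 : ℝ) : ℂ)) / (nm v : ℂ) =
      (trace W v : ℂ) * Complex.exp (-((Real.log (nm v) / 2 : ℝ) : ℂ)) *
        Complex.exp (-((Real.log (nm v) : ℝ) : ℂ)) := by
    rw [Complex.exp_neg ((Real.log (nm v) : ℝ) : ℂ), ← h1, div_eq_mul_inv]
  rw [h3, mul_assoc, mul_assoc, ← Complex.exp_add, ← Complex.exp_add]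
  congr 2
  push_cast
  ring

lemma u1_ph (W : WeierstrassCurve (𝓞 K)) (v : HeightOneSpectrum (𝓞 K)) (z : ℂ) :
    u1 W v z = (trace W v : ℂ) * (nm v : ℂ) ^ (-(((3 / 2 : ℝ) : ℂ) + z)) -
      (nm v : ℂ) ^ (1 - 2 * (((3 / 2 : ℝ) : ℂ) + z)) := by
  unfold u1
  rw [mt_main]

lemma lf_eq (W : WeierstrassCurve (𝓞 K)) (v : HeightOneSpectrum (𝓞 K)) (z : ℂ) :
    localFactor W v (((3 / 2 : ℝ) : ℂ) + z) = (1 - u1 W v z)⁻¹ := by
  rw [u1_ph]
  unfold localFactor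
  have : (norm v : ℂ) = (nm v : ℂ) := rfl
  rw [this]
  congr 1
  ring

lemma norm_first' {W : WeierstrassCurve (𝓞 K)} {v : HeightOneSpectrum (𝓞 K)} (h : IsGood W v)
    {z : ℂ} (hz : 0 ≤ z.re) :
    ‖mt nm (fun v => (trace W v : ℂ) * (((Real.sqrt (nm v) : ℝ) : ℂ))⁻¹) z v‖ ≤ 2 / nm v := by
  have h0 := nm_pos v
  have hs : 0 < Real.sqrt (nm v) := Real.sqrt_pos.2 h0
  rw [norm_mt hN]
  have h1 : (nm v : ℝ) ^ (-z.re) ≤ 1 :=
    Real.rpow_le_one_of_one_le_of_nonpos (by exact_mod_cast hN v) (by linarith)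
  have h2 : ‖(trace W v : ℂ) * (((Real.sqrt (nm v) : ℝ) : ℂ))⁻¹‖ ≤ 2 := by
    rw [norm_mul, Complex.norm_intCast, norm_inv, Complex.norm_real,
      Real.norm_of_nonneg hs.le, ← div_eq_mul_inv, div_le_iff₀ hs]
    exact hasse h
  calc ‖(trace W v : ℂ) * (((Real.sqrt (nm v) : ℝ) : ℂ))⁻¹‖ / nm v * (nm v : ℝ) ^ (-z.re)
      ≤ 2 / nm v * 1 := mul_le_mul (div_le_div_of_nonneg_right h2 h0.le) h1 (by positivity)
        (by positivity)
    _ = 2 / (nm v : ℝ) := mul_one _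

lemma norm_second' (v : HeightOneSpectrum (𝓞 K)) {z : ℂ} (hz : 0 ≤ z.re) :
    ‖(nm v : ℂ) ^ (1 - 2 * (((3 / 2 : ℝ) : ℂ) + z))‖ ≤ (nm v : ℝ) ^ (-2 : ℝ) := by
  have h1 : (1 : ℝ) ≤ nm v := by exact_mod_cast hN v
  rw [Complex.norm_natCast_cpow_of_pos (hN v)]
  refine Real.rpow_le_rpow_of_exponent_le h1 ?_
  simp only [Complex.sub_re, Complex.one_re, Complex.mul_re, Complex.re_ofNat, Complex.add_re,
    Complex.ofReal_re, Complex.im_ofNat, zero_mul, sub_zero]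
  linarith

lemma norm_u1 {W : WeierstrassCurve (𝓞 K)} {v : HeightOneSpectrum (𝓞 K)} (h : IsGood W v) {z : ℂ}
    (hz : 0 ≤ z.re) : ‖u1 W v z‖ ≤ 11 / 5 / nm v ∧ ‖u1 W v z‖ ≤ 11 / 25 := by
  have h5 : (5 : ℝ) ≤ nm v := by exact_mod_cast five_le_v (good_six h).1
  have h0 := nm_pos v
  have h1 := norm_first' h hz
  have h2 := norm_second' v hz
  have h3 : (nm v : ℝ) ^ (-2 : ℝ) ≤ 1 / 5 / nm v := by
    rw [Real.rpow_neg h0.le, Real.rpow_two, ← one_div, div_div, div_le_div_iff₀ (by positivity)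
      (by positivity)]
    nlinarith
  have h4 : ‖u1 W v z‖ ≤ 11 / 5 / nm v := by
    unfold u1
    refine (norm_sub_le _ _).trans ((add_le_add h1 (h2.trans h3)).trans (le_of_eq ?_))
    ring
  refine ⟨h4, h4.trans ?_⟩
  rw [div_le_iff₀ h0]
  linarith

lemma slit {W : WeierstrassCurve (𝓞 K)} {v : HeightOneSpectrum (𝓞 K)} (h : IsGood W v) {z : ℂ}
    (hz : 0 ≤ z.re) : 1 - u1 W v z ∈ Complex.slitPlane := by
  refine Or.inl ?_
  have h3 := (norm_u1 h hz).2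
  have h4 := Complex.re_le_norm (u1 W v z)
  rw [Complex.sub_re, Complex.one_re]
  linarith

lemma ln_eq {W : WeierstrassCurve (𝓞 K)} {V : Set (HeightOneSpectrum (𝓞 K))}
    (hV : ∀ v ∈ V, IsGood W v) {v : HeightOneSpectrum (𝓞 K)} (hv : v ∈ V) {z : ℂ} (hz : 0 ≤ z.re) :
    ln' W V v z = -Complex.log (1 - u1 W v z) := by
  unfold ln'
  rw [if_pos hv, lf_eq, Complex.log_inv]
  exact Complex.slitPlane_arg_ne_pi (slit (hV v hv) hz)

lemma an_mt {W : WeierstrassCurve (𝓞 K)} {V : Set (HeightOneSpectrum (𝓞 K))}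
    {v : HeightOneSpectrum (𝓞 K)} (hv : v ∈ V) (z : ℂ) :
    mt nm (an' W V) z v =
      mt nm (fun v => (trace W v : ℂ) * (((Real.sqrt (nm v) : ℝ) : ℂ))⁻¹) z v := by
  unfold mt an'
  rw [if_pos hv]

lemma ln_rem {W : WeierstrassCurve (𝓞 K)} {V : Set (HeightOneSpectrum (𝓞 K))}
    (hV : ∀ v ∈ V, IsGood W v) (v : HeightOneSpectrum (𝓞 K)) (z : ℂ) (hz : 0 ≤ z.re) :
    ‖ln' W V v z - mt nm (an' W V) z v‖ ≤ 6 * (nm v : ℝ) ^ (-2 : ℝ) := by
  have h0 := nm_pos v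
  by_cases hv : v ∈ V
  · have h := hV v hv
    obtain ⟨h1, h2⟩ := norm_u1 h hz
    have h3 : ‖-u1 W v z‖ < 1 := by
      rw [norm_neg]
      linarith
    have h4 := Complex.norm_log_one_add_sub_self_le h3
    rw [norm_neg] at h4
    have h5 : ln' W V v z - mt nm (an' W V) z v =
        -(Complex.log (1 + -u1 W v z) - -u1 W v z) -
          (nm v : ℂ) ^ (1 - 2 * (((3 / 2 : ℝ) : ℂ) + z)) := by
      rw [ln_eq hV hv hz, an_mt hv]
      unfold u1
      ring_nf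
    rw [h5]
    refine (norm_sub_le _ _).trans ?_
    rw [norm_neg]
    have h6 : ‖u1 W v z‖ ^ 2 * (1 - ‖u1 W v z‖)⁻¹ / 2 ≤ 5 * (nm v : ℝ) ^ (-2 : ℝ) := by
      have h7 : (1 - ‖u1 W v z‖)⁻¹ ≤ 2 := by
        rw [inv_le_comm₀ (by linarith) (by norm_num)]
        linarith
      have h8 : ‖u1 W v z‖ ^ 2 ≤ (11 / 5 / nm v) ^ 2 := pow_le_pow_left₀ (norm_nonneg _) h1 2
      have h9 : (11 / 5 / (nm v : ℝ)) ^ 2 = 121 / 25 * (nm v : ℝ) ^ (-2 : ℝ) := by
        rw [Real.rpow_neg h0.le, Real.rpow_two]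
        ring_nf
      have h10 : 0 < (1 - ‖u1 W v z‖)⁻¹ := inv_pos.2 (by linarith)
      have h11 : 0 < (nm v : ℝ) ^ (-2 : ℝ) := by positivity
      calc ‖u1 W v z‖ ^ 2 * (1 - ‖u1 W v z‖)⁻¹ / 2
          ≤ (121 / 25 * (nm v : ℝ) ^ (-2 : ℝ)) * 2 / 2 := by
            rw [← h9]
            have := mul_le_mul h8 h7 h10.le (by positivity)
            linarith
        _ ≤ _ := by linarith
    have h12 := norm_second' v hz
    linarith
  · unfold ln' mt an'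
    rw [if_neg hv, if_neg hv, zero_div, zero_mul, sub_zero, norm_zero]
    positivity

lemma continuous_u1 (W : WeierstrassCurve (𝓞 K)) (v : HeightOneSpectrum (𝓞 K)) :
    Continuous (u1 W v) := by
  unfold u1 mt
  refine Continuous.sub (by fun_prop) ?_
  exact Continuous.const_cpow (by fun_prop) (Or.inl (nmC_ne v))

lemma ln_cont {W : WeierstrassCurve (𝓞 K)} {V : Set (HeightOneSpectrum (𝓞 K))}
    (hV : ∀ v ∈ V, IsGood W v) (v : HeightOneSpectrum (𝓞 K)) :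
    ContinuousOn (ln' W V v) {z | 0 ≤ z.re} := by
  by_cases hv : v ∈ V
  · have h1 : ContinuousOn (fun z => -Complex.log (1 - u1 W v z)) {z | 0 ≤ z.re} :=
      (ContinuousOn.clog (continuous_const.sub (continuous_u1 W v)).continuousOn
        fun z hz => slit (hV v hv) hz).neg
    exact h1.congr fun z hz => ln_eq hV hv hz
  · have h1 : ln' W V v = fun _ => 0 := by
      funext z
      unfold ln'
      rw [if_neg hv]
    rw [h1]
    exact continuousOn_const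

lemma second_ph (v : HeightOneSpectrum (𝓞 K)) (τ : ℝ) :
    (nm v : ℂ) ^ (1 - 2 * (((3 / 2 : ℝ) : ℂ) + (τ : ℂ) * Complex.I)) =
      (nm v : ℂ) ^ (-2 : ℂ) * ph (nm v) τ ^ 2 := by
  rw [← ph_eq (nm v) (hN v) τ, ← Complex.cpow_nat_mul, ← Complex.cpow_add _ _ (nmC_ne v)]
  congr 1
  push_cast
  ring

lemma ln_phase {W : WeierstrassCurve (𝓞 K)} {V : Set (HeightOneSpectrum (𝓞 K))}
    (hV : ∀ v ∈ V, IsGood W v) (v : HeightOneSpectrum (𝓞 K)) (τ₀ : ℝ) :
    Tendsto (fun τ : ℝ => ln' W V v (τ * Complex.I)) (PF τ₀) (𝓝 (ln' W V v (τ₀ * Complex.I))) := by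
  by_cases hv : v ∈ V
  · have h0 : ∀ τ : ℝ, (0 : ℝ) ≤ ((τ : ℂ) * Complex.I).re := fun τ => by simp
    have h1 : ∀ τ : ℝ, ln' W V v (τ * Complex.I) = -Complex.log (1 - u1 W v (τ * Complex.I)) :=
      fun τ => ln_eq hV hv (h0 τ)
    have h2 : ∀ τ : ℝ, u1 W v (τ * Complex.I) =
        (trace W v : ℂ) * (((Real.sqrt (nm v) : ℝ) : ℂ))⁻¹ / nm v * ph (nm v) τ -
          (nm v : ℂ) ^ (-2 : ℂ) * ph (nm v) τ ^ 2 := by
      intro τ
      unfold u1
      rw [second_ph]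
      congr 1
      unfold mt ph
      congr 2
      ring
    have h3 : Tendsto (fun τ : ℝ => u1 W v (τ * Complex.I)) (PF τ₀)
        (𝓝 (u1 W v (τ₀ * Complex.I))) := by
      simp only [h2]
      have h4 := tendsto_ph_nat τ₀ (nm v) (hN v)
      exact (h4.const_mul _).sub ((h4.pow 2).const_mul _)
    simp only [h1]
    exact ((tendsto_const_nhds.sub h3).clog (slit (hV v hv) (h0 τ₀))).neg
  · have h1 : ∀ z, ln' W V v z = 0 := by
      intro z
      unfold ln'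
      rw [if_neg hv]
    simp only [h1]
    exact tendsto_const_nhds

lemma cf_bound {W : WeierstrassCurve (𝓞 K)} {V : Set (HeightOneSpectrum (𝓞 K))}
    (hV : ∀ v ∈ V, IsGood W v) (p : ℕ) :
    ‖cf (N := nm) (an' W V) p‖ ≤ 2 * Module.finrank ℚ K := by
  unfold cf
  split_ifs with hp
  · have hfi : Finite (𝓞 K →+* ZMod p) := hom_finite ⟨p, hp⟩
    have := Fintype.ofFinite (𝓞 K →+* ZMod p)
    unfold grp
    rw [← (homEquiv (K := K) p hp).tsum_eq, tsum_fintype]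
    have h1 : ∀ φ ∈ (Finset.univ : Finset (𝓞 K →+* ZMod p)),
        ‖an' W V ((homEquiv (K := K) p hp φ : _) : HeightOneSpectrum (𝓞 K))‖ ≤ 2 :=
      fun φ _ => norm_an' hV _
    refine (norm_sum_le_of_le _ h1).trans ?_
    rw [Finset.sum_const, nsmul_eq_mul, mul_comm]
    refine mul_le_mul_of_nonneg_left ?_ (by norm_num)
    have h2 := (R_eq_hc (K := K) ⟨p, hp⟩).symm.trans_le (R_le (K := K) ⟨p, hp⟩)
    rw [hc, Nat.card_eq_fintype_card] at h2
    rw [Finset.card_univ]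
    exact_mod_cast h2
  · rw [norm_zero]
    positivity

lemma logL_eq {W : WeierstrassCurve (𝓞 K)} {V : Set (HeightOneSpectrum (𝓞 K))}
    (hV : ∀ v ∈ V, IsGood W v) (s : ℂ) (hs : (3 / 2 : ℝ) < s.re) :
    logL W V s = (∑' p, ct (cf (N := nm) (an' W V)) (s - ((3 / 2 : ℝ) : ℂ)) p) +
      rm nm (an' W V) (ln' W V) (s - ((3 / 2 : ℝ) : ℂ)) := by
  classical
  have h1 := log_eq hN hfin hpow hlow (an' W V) 2 (norm_an' hV) (ln' W V) 6
    (fun v z hz => ln_rem hV v z hz) (s - ((3 / 2 : ℝ) : ℂ))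
    (by rw [Complex.sub_re, Complex.ofReal_re]; linarith)
  rw [← h1]
  unfold logL
  rw [tsum_subtype V fun v => Complex.log (localFactor W v s)]
  refine tsum_congr fun v => ?_
  unfold ln'
  rw [Set.indicator_apply]
  have h2 : ((3 / 2 : ℝ) : ℂ) + (s - ((3 / 2 : ℝ) : ℂ)) = s := by ring
  rw [h2]

lemma cf_eq (W : WeierstrassCurve (𝓞 K)) (V : Set (HeightOneSpectrum (𝓞 K))) (p : ℕ)
    (hp : p.Prime) : cf (N := nm) (an' W V) p = primeCoeff W V p := by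
  classical
  unfold cf grp primeCoeff
  rw [if_pos hp]
  have h1 := tsum_subtype ((nm : HeightOneSpectrum (𝓞 K) → ℕ) ⁻¹' {p}) (an' W V)
  have h2 := tsum_subtype {v : HeightOneSpectrum (𝓞 K) | v ∈ V ∧ norm v = p}
    (fun v => (trace W v : ℂ) / ((√(p : ℝ) : ℝ) : ℂ))
  rw [h1]
  refine Eq.trans (tsum_congr fun v => ?_) h2.symm
  by_cases hv : nm v = p
  · by_cases hvV : v ∈ V
    · have e1 : v ∈ (nm : HeightOneSpectrum (𝓞 K) → ℕ) ⁻¹' {p} := hv
      have e2 : v ∈ {v : HeightOneSpectrum (𝓞 K) | v ∈ V ∧ norm v = p} := ⟨hvV, hv⟩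
      rw [Set.indicator_of_mem e1, Set.indicator_of_mem e2]
      unfold an'
      rw [if_pos hvV, hv, div_eq_mul_inv]
    · have e2 : v ∉ {v : HeightOneSpectrum (𝓞 K) | v ∈ V ∧ norm v = p} := fun h => hvV h.1
      rw [Set.indicator_of_notMem e2]
      unfold an'
      rw [Set.indicator_apply, if_neg hvV, ite_self]
  · have e1 : v ∉ (nm : HeightOneSpectrum (𝓞 K) → ℕ) ⁻¹' {p} := hv
    have e2 : v ∉ {v : HeightOneSpectrum (𝓞 K) | v ∈ V ∧ norm v = p} := fun h => hv h.2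
    rw [Set.indicator_of_notMem e1, Set.indicator_of_notMem e2]

end Pool.Agent.N903.ED
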