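import Pool.Agent.W350.Edge4

/-!
# The tail of a prime sum on the edge is small outside a set of small upper density
-/

set_option autoImplicit false

namespace Pool.Agent.N903.ED

open Finset Filter Topology MeasureTheory Pool.Agent.W350.Edge
open scoped ENNReal

lemma norm_hh_tw (a : ℕ → ℂ) (j : ℕ) (z τ : ℝ) : ‖hh 3 a j (τ + z)‖ = ‖hh 3 (tw a z) j τ‖ := by
  rw [norm_hh, norm_hh, ps_tw]

lemma continuous_hh (a : ℕ → ℂ) (j : ℕ) : Continuous (hh 3 a j) :=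
  continuous_iff_continuousAt.2 fun τ => (hasDerivAt_hh 3 a j τ).continuousAt

/-- The local mean square of a block. -/
lemma block_shift (a : ℕ → ℂ) (D : ℝ) (hD : 0 ≤ D) (ha : ∀ p, ‖a p‖ ≤ D) (j : ℕ) (z : ℝ) :
    ∫ τ in z..(z + 1), ‖hh 3 a j τ‖ ^ 2 ≤ 72 * CC ^ 2 * D ^ 2 * LL 3 j / KK 3 j ^ 2 := by
  have h1 : ∫ τ in z..(z + 1), ‖hh 3 a j τ‖ ^ 2 = ∫ τ in (0 : ℝ)..1, ‖hh 3 a j (τ + z)‖ ^ 2 := by
    rw [intervalIntegral.integral_comp_add_right (fun τ => ‖hh 3 a j τ‖ ^ 2) z, zero_add, add_comm 1]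
  rw [h1]
  simp only [norm_hh_tw]
  refine block_mean (KK_pos 3 j) (fun p hp => mem_FF' 3 hp) (fun p => tw a z p / p) D hD ?_ _
  intro p _
  rw [norm_div, Complex.norm_natCast, norm_tw]
  exact div_le_div_of_nonneg_right (ha p) (Nat.cast_nonneg _)

/-- The constant. -/
noncomputable def BB (D : ℝ) : ℝ := 2304 * CC ^ 2 * D ^ 2

lemma BB_nonneg (D : ℝ) : 0 ≤ BB D := by
  unfold BB
  positivity

lemma block_num (D : ℝ) (j : ℕ) :
    ((j : ℝ) + 1) ^ 2 * (72 * CC ^ 2 * D ^ 2 * LL 3 j / KK 3 j ^ 2) ≤ BB D / ((j : ℝ) + 1) ^ 3 := by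
  have h1 : (LL 3 j : ℝ) ≤ 32 * ((j : ℝ) + 1) ^ 3 := by
    have h := LL_le 3 j
    have h' : LL 3 j ≤ 32 * (j + 1) ^ 3 := by
      calc LL 3 j ≤ (3 + 1) * 2 ^ 3 * (j + 1) ^ 3 := h
        _ = 32 * (j + 1) ^ 3 := by ring
    exact_mod_cast h'
  have h2 : (KK 3 j : ℝ) = ((j : ℝ) + 1) ^ 4 := by
    unfold KK
    push_cast
    ring
  have hj : (0 : ℝ) < (j : ℝ) + 1 := by positivity
  rw [h2]
  calc ((j : ℝ) + 1) ^ 2 * (72 * CC ^ 2 * D ^ 2 * LL 3 j / (((j : ℝ) + 1) ^ 4) ^ 2)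
      ≤ ((j : ℝ) + 1) ^ 2 * (72 * CC ^ 2 * D ^ 2 * (32 * ((j : ℝ) + 1) ^ 3) /
          (((j : ℝ) + 1) ^ 4) ^ 2) := by gcongr
    _ = BB D / ((j : ℝ) + 1) ^ 3 := by
      unfold BB
      field_simp
      ring

/-- The dominating function. -/
noncomputable def GG (a : ℕ → ℂ) (J : ℕ) (τ : ℝ) : ℝ≥0∞ :=
  ∑' i : ℕ, ENNReal.ofReal ((((i + J : ℕ) : ℝ) + 1) ^ 2 * ‖hh 3 a (i + J) τ‖ ^ 2)

lemma measurable_GG (a : ℕ → ℂ) (J : ℕ) : Measurable (GG a J) := by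
  unfold GG
  refine Measurable.tsum fun i => ?_
  refine ENNReal.measurable_ofReal.comp (Continuous.measurable ?_)
  exact continuous_const.mul ((continuous_hh a (i + J)).norm.pow 2)

lemma lint_unit (a : ℕ → ℂ) (D : ℝ) (hD : 0 ≤ D) (ha : ∀ p, ‖a p‖ ≤ D) (j : ℕ) (z : ℝ) :
    ∫⁻ τ in Set.Ioc z (z + 1), ENNReal.ofReal (((j : ℝ) + 1) ^ 2 * ‖hh 3 a j τ‖ ^ 2) ≤
      ENNReal.ofReal (BB D / ((j : ℝ) + 1) ^ 3) := by
  have hc : Continuous fun τ => ((j : ℝ) + 1) ^ 2 * ‖hh 3 a j τ‖ ^ 2 :=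
    continuous_const.mul ((continuous_hh a j).norm.pow 2)
  rw [← ofReal_integral_eq_lintegral_ofReal
    (hc.integrableOn_Icc.mono_set Set.Ioc_subset_Icc_self)
    (Eventually.of_forall fun τ => by positivity)]
  refine ENNReal.ofReal_le_ofReal ?_
  rw [← intervalIntegral.integral_of_le (by linarith), intervalIntegral.integral_const_mul]
  refine le_trans ?_ (block_num D j)
  exact mul_le_mul_of_nonneg_left (block_shift a D hD ha j z) (by positivity)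

lemma lint_T (f : ℝ → ℝ≥0∞) (B : ℝ≥0∞) (hB : ∀ z : ℝ, ∫⁻ τ in Set.Ioc z (z + 1), f τ ≤ B) (m : ℕ) :
    ∫⁻ τ in Set.Ioc (0 : ℝ) m, f τ ≤ m * B := by
  induction m with
  | zero => simp
  | succ m ih =>
    have h1 : Set.Ioc (0 : ℝ) ((m + 1 : ℕ) : ℝ) ⊆ Set.Ioc (0 : ℝ) m ∪ Set.Ioc (m : ℝ) (m + 1) := by
      intro x hx
      rcases le_or_gt x m with h | h
      · exact Or.inl ⟨hx.1, h⟩
      · refine Or.inr ⟨h, ?_⟩
        have := hx.2
        push_cast at this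
        exact this
    refine (lintegral_mono_set h1).trans ((lintegral_union_le _ _ _).trans ?_)
    refine (add_le_add ih (hB m)).trans (le_of_eq ?_)
    push_cast
    ring

/-- The tail of the constants. -/
noncomputable def EE (D : ℝ) (J : ℕ) : ℝ≥0∞ :=
  ∑' i : ℕ, ENNReal.ofReal (BB D / (((i + J : ℕ) : ℝ) + 1) ^ 3)

lemma tendsto_EE (D : ℝ) : Tendsto (EE D) atTop (𝓝 0) := by
  have hs : Summable fun j : ℕ => BB D / ((j : ℝ) + 1) ^ 3 := by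
    have h1 : Summable fun n : ℕ => 1 / (n : ℝ) ^ 3 := Real.summable_one_div_nat_pow.2 (by norm_num)
    have h2 := ((summable_nat_add_iff 1).2 h1).mul_left (BB D)
    refine h2.congr fun j => ?_
    push_cast
    ring
  have hne : ∑' j : ℕ, ENNReal.ofReal (BB D / ((j : ℝ) + 1) ^ 3) ≠ ∞ := by
    rw [← ENNReal.ofReal_tsum_of_nonneg (fun j => by have := BB_nonneg D; positivity) hs]
    exact ENNReal.ofReal_ne_top
  exact ENNReal.tendsto_sum_nat_add _ hne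

lemma lint_GG (a : ℕ → ℂ) (D : ℝ) (hD : 0 ≤ D) (ha : ∀ p, ‖a p‖ ≤ D) (J m : ℕ) :
    ∫⁻ τ in Set.Ioc (0 : ℝ) m, GG a J τ ≤ m * EE D J := by
  unfold GG
  rw [lintegral_tsum fun i => by
    refine (ENNReal.measurable_ofReal.comp (Continuous.measurable ?_)).aemeasurable
    exact continuous_const.mul ((continuous_hh a (i + J)).norm.pow 2)]
  unfold EE
  rw [← ENNReal.tsum_mul_left]
  refine ENNReal.tsum_le_tsum fun i => ?_
  refine lint_T _ _ (fun z => ?_) m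
  exact lint_unit a D hD ha (i + J) z

/-- The constant of the Cauchy-Schwarz inequality. -/
noncomputable def C2 : ℝ := ∑' j : ℕ, (1 / ((j : ℝ) + 1)) ^ 2

lemma summable_C2 : Summable fun j : ℕ => (1 / ((j : ℝ) + 1)) ^ 2 := by
  have h1 : Summable fun n : ℕ => 1 / (n : ℝ) ^ 2 := Real.summable_one_div_nat_pow.2 (by norm_num)
  refine ((summable_nat_add_iff 1).2 h1).congr fun j => ?_
  rw [div_pow, one_pow]
  push_cast
  ring

lemma C2_pos : 0 < C2 := by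
  refine lt_of_lt_of_le ?_ (summable_C2.le_tsum 0 fun _ _ => by positivity)
  norm_num

lemma sum_inv_sq_le (J m : ℕ) :
    ∑ i ∈ range m, (1 / (((i + J : ℕ) : ℝ) + 1)) ^ 2 ≤ C2 := by
  have h1 := summable_C2.sum_add_tsum_nat_add J
  have h2 : ∑ i ∈ range m, (1 / (((i + J : ℕ) : ℝ) + 1)) ^ 2 ≤
      ∑' i : ℕ, (1 / (((i + J : ℕ) : ℝ) + 1)) ^ 2 :=
    ((summable_nat_add_iff J).2 summable_C2).sum_le_tsum _ fun _ _ => by positivity
  have h3 : 0 ≤ ∑ i ∈ range J, (1 / ((i : ℝ) + 1)) ^ 2 := sum_nonneg fun _ _ => by positivity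
  unfold C2
  linarith

lemma NN_mono : Monotone (NN 3) := monotone_nat_of_le_succ (NN_le 3)

lemma partial_le (a : ℕ → ℂ) (J m : ℕ) (τ : ℝ) :
    ENNReal.ofReal (‖ps a τ (NN 3 (m + J)) - ps a τ (NN 3 J)‖ ^ 2) ≤
      ENNReal.ofReal C2 * GG a J τ := by
  have h1 : ps a τ (NN 3 (m + J)) - ps a τ (NN 3 J) =
      ∑ i ∈ range m, (ps a τ (NN 3 (i + J + 1)) - ps a τ (NN 3 (i + J))) := by
    have := sum_range_sub (fun i => ps a τ (NN 3 (i + J))) m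
    simp only [zero_add] at this
    rw [← this]
    refine sum_congr rfl fun i _ => ?_
    rw [add_right_comm]
  have h2 : ‖ps a τ (NN 3 (m + J)) - ps a τ (NN 3 J)‖ ≤
      ∑ i ∈ range m, (1 / (((i + J : ℕ) : ℝ) + 1)) *
        ((((i + J : ℕ) : ℝ) + 1) * ‖hh 3 a (i + J) τ‖) := by
    rw [h1]
    refine (norm_sum_le _ _).trans (sum_le_sum fun i _ => ?_)
    rw [← norm_hh]
    have : (0 : ℝ) < ((i + J : ℕ) : ℝ) + 1 := by positivity
    rw [← mul_assoc, one_div, inv_mul_cancel₀ this.ne', one_mul]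
  have h3 : ‖ps a τ (NN 3 (m + J)) - ps a τ (NN 3 J)‖ ^ 2 ≤
      C2 * ∑ i ∈ range m, ((((i + J : ℕ) : ℝ) + 1) ^ 2 * ‖hh 3 a (i + J) τ‖ ^ 2) := by
    refine (pow_le_pow_left₀ (norm_nonneg _) h2 2).trans ?_
    refine (sum_mul_sq_le_sq_mul_sq _ _ _).trans ?_
    have h4 : ∑ i ∈ range m, ((((i + J : ℕ) : ℝ) + 1) * ‖hh 3 a (i + J) τ‖) ^ 2 =
        ∑ i ∈ range m, ((((i + J : ℕ) : ℝ) + 1) ^ 2 * ‖hh 3 a (i + J) τ‖ ^ 2) :=
      sum_congr rfl fun i _ => by ring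
    rw [h4]
    exact mul_le_mul_of_nonneg_right (sum_inv_sq_le J m) (sum_nonneg fun _ _ => by positivity)
  refine (ENNReal.ofReal_le_ofReal h3).trans ?_
  rw [ENNReal.ofReal_mul C2_pos.le]
  gcongr
  rw [ENNReal.ofReal_sum_of_nonneg fun _ _ => by positivity]
  unfold GG
  exact ENNReal.sum_le_tsum _

lemma limit_le (a : ℕ → ℂ) (J : ℕ) (τ : ℝ) (l : ℂ) (hl : Tendsto (ps a τ) atTop (𝓝 l)) :
    ENNReal.ofReal (‖l - ps a τ (NN 3 J)‖ ^ 2) ≤ ENNReal.ofReal C2 * GG a J τ := by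
  have h1 : Tendsto (fun m : ℕ => NN 3 (m + J)) atTop atTop :=
    (tendsto_NN 3).comp (tendsto_add_atTop_nat J)
  have h2 : Tendsto (fun m : ℕ => ENNReal.ofReal
      (‖ps a τ (NN 3 (m + J)) - ps a τ (NN 3 J)‖ ^ 2)) atTop
      (𝓝 (ENNReal.ofReal (‖l - ps a τ (NN 3 J)‖ ^ 2))) :=
    ENNReal.tendsto_ofReal ((((hl.comp h1).sub_const _).norm).pow 2)
  exact le_of_tendsto h2 (Eventually.of_forall fun m => partial_le a J m τ)

/-- **The tail is small outside a set of small upper density.** -/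
theorem tail_small (a : ℕ → ℂ) (D : ℝ) (ha : ∀ p, ‖a p‖ ≤ D) (δ η : ℝ) (hδ : 0 < δ) (hη : 0 < η) :
    ∃ J₀ : ℕ, ∀ J, J₀ ≤ J → ∀ T : ℝ, 1 ≤ T →
      volume {τ : ℝ | τ ∈ Set.Ioc 0 T ∧ ∃ l, Tendsto (ps a τ) atTop (𝓝 l) ∧
        δ ≤ ‖l - ps a τ (NN 3 J)‖} ≤ ENNReal.ofReal (η * T) := by
  have hD : 0 ≤ D := (norm_nonneg _).trans (ha 0)
  set θ : ℝ := δ ^ 2 / C2 with hθ
  have hθ0 : 0 < θ := div_pos (by positivity) C2_pos
  have hev : ∀ᶠ J in atTop, EE D J ≤ ENNReal.ofReal (η * θ / 2) := by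
    refine (tendsto_EE D).eventually (ge_mem_nhds ?_)
    exact ENNReal.ofReal_pos.2 (by positivity)
  obtain ⟨J₀, hJ₀⟩ := eventually_atTop.1 hev
  refine ⟨J₀, fun J hJ T hT => ?_⟩
  set m := ⌈T⌉₊ with hm
  have hmT : T ≤ m := Nat.le_ceil T
  have hm2 : (m : ℝ) ≤ 2 * T := by
    have := Nat.ceil_lt_add_one (by linarith : 0 ≤ T)
    rw [← hm] at this
    linarith
  have h1 : {τ : ℝ | τ ∈ Set.Ioc 0 T ∧ ∃ l, Tendsto (ps a τ) atTop (𝓝 l) ∧
      δ ≤ ‖l - ps a τ (NN 3 J)‖} ⊆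
      {τ : ℝ | ENNReal.ofReal θ ≤ GG a J τ} ∩ Set.Ioc (0 : ℝ) m := by
    rintro τ ⟨hτ, l, hl, hlδ⟩
    refine ⟨?_, hτ.1, hτ.2.trans hmT⟩
    have h2 := limit_le a J τ l hl
    have h3 : ENNReal.ofReal (δ ^ 2) ≤ ENNReal.ofReal (‖l - ps a τ (NN 3 J)‖ ^ 2) :=
      ENNReal.ofReal_le_ofReal (pow_le_pow_left₀ hδ.le hlδ 2)
    have h4 := h3.trans h2
    show ENNReal.ofReal θ ≤ GG a J τ
    have hC0 : ENNReal.ofReal C2 ≠ 0 := (ENNReal.ofReal_pos.2 C2_pos).ne'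
    have h5 : ENNReal.ofReal θ = ENNReal.ofReal (δ ^ 2) / ENNReal.ofReal C2 := by
      rw [hθ, ENNReal.ofReal_div_of_pos C2_pos]
    rw [h5, ENNReal.div_le_iff' hC0 ENNReal.ofReal_ne_top]
    exact h4
  refine (measure_mono h1).trans ?_
  have hmeas : MeasurableSet {τ : ℝ | ENNReal.ofReal θ ≤ GG a J τ} :=
    measurableSet_le measurable_const (measurable_GG a J)
  rw [← Measure.restrict_apply hmeas]
  have h2 := meas_ge_le_lintegral_div (μ := volume.restrict (Set.Ioc (0 : ℝ) m))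
    (measurable_GG a J).aemeasurable (ε := ENNReal.ofReal θ)
    (ENNReal.ofReal_pos.2 hθ0).ne' ENNReal.ofReal_ne_top
  refine h2.trans ?_
  rw [ENNReal.div_le_iff (ENNReal.ofReal_pos.2 hθ0).ne' ENNReal.ofReal_ne_top]
  refine (lint_GG a D hD ha J m).trans ?_
  refine (mul_le_mul' le_rfl (hJ₀ J hJ)).trans ?_
  rw [← ENNReal.ofReal_natCast, ← ENNReal.ofReal_mul (Nat.cast_nonneg _),
    ← ENNReal.ofReal_mul (by positivity)]
  refine ENNReal.ofReal_le_ofReal ?_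
  have : 0 < η * θ := by positivity
  nlinarith

end Pool.Agent.N903.ED
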