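import Pool.Agent.N903.ED.Wt
import Pool.Agent.W350.Edge5

/-!
# Boundary values of logarithms of Euler products: independence or boundedness
-/

set_option autoImplicit false

namespace Pool.Agent.N903.ED

open Finset Filter Topology MeasureTheory Pool.Agent.W350.Edge
open scoped ENNReal

/-! ### The filter of the phases -/

/-- The basic sets. -/
def pset (τ₀ : ℝ) (N : ℕ) : Set ℝ :=
  {τ | ∀ p < N, p.Prime → ‖ph p τ - ph p τ₀‖ < 1 / ((N : ℝ) + 1)}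

/-- The filter of the phases at `τ₀`. -/
def PF (τ₀ : ℝ) : Filter ℝ := ⨅ N : ℕ, 𝓟 (pset τ₀ N)

lemma pset_anti (τ₀ : ℝ) : Antitone (pset τ₀) := by
  intro N N' h τ hτ p hp hpp
  refine (hτ p (by omega) hpp).trans_le ?_
  refine one_div_le_one_div_of_le (by positivity) ?_
  have : (N : ℝ) ≤ N' := by exact_mod_cast h
  linarith

lemma mem_PF (τ₀ : ℝ) (U : Set ℝ) : U ∈ PF τ₀ ↔ ∃ N, pset τ₀ N ⊆ U := by
  unfold PF
  rw [(hasBasis_iInf_principal (directed_of_isDirected_le (pset_anti τ₀))).mem_iff]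
  simp

lemma tendsto_ph (τ₀ : ℝ) (p : ℕ) (hp : p.Prime) : Tendsto (ph p) (PF τ₀) (𝓝 (ph p τ₀)) := by
  rw [Metric.tendsto_nhds]
  intro ε hε
  obtain ⟨N, hN⟩ := exists_nat_one_div_lt hε
  rw [Filter.Eventually, mem_PF]
  refine ⟨max N (p + 1), fun τ hτ => ?_⟩
  rw [Set.mem_ofPred_eq, dist_eq_norm]
  refine (hτ p (lt_of_lt_of_le (Nat.lt_succ_self p) (le_max_right _ _)) hp).trans_le
    (le_trans ?_ hN.le)
  refine one_div_le_one_div_of_le (by positivity) ?_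
  have : (N : ℝ) ≤ (max N (p + 1) : ℕ) := by exact_mod_cast le_max_left _ _
  linarith

lemma ph_add (p : ℕ) (τ h : ℝ) : ph p (τ + h) = ph p τ * ph p h := by
  unfold ph
  rw [← Complex.exp_add]
  congr 1
  push_cast
  ring

lemma tendsto_shift (τ₀ h : ℝ) : Tendsto (fun τ => τ + h) (PF τ₀) (PF (τ₀ + h)) := by
  intro U hU
  obtain ⟨N, hN⟩ := (mem_PF _ _).1 hU
  refine (mem_PF _ _).2 ⟨N, fun τ hτ => hN fun p hp hpp => ?_⟩
  rw [ph_add, ph_add, ← sub_mul, norm_mul, norm_ph, mul_one]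
  exact hτ p hp hpp

/-! ### The prime sum in the half-plane -/

/-- The terms in the half-plane. -/
noncomputable def ct (c : ℕ → ℂ) (z : ℂ) (p : ℕ) : ℂ :=
  if p.Prime then c p / p * Complex.exp (-z * Real.log p) else 0

lemma norm_exp_log (z : ℂ) {p : ℕ} (hp : 1 ≤ p) :
    ‖Complex.exp (-z * Real.log p)‖ = (p : ℝ) ^ (-z.re) := by
  have hp0 : (0 : ℝ) < p := by exact_mod_cast hp
  rw [Complex.norm_exp, Complex.mul_re, Complex.ofReal_re, Complex.ofReal_im, mul_zero,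
    sub_zero, Complex.neg_re, Real.rpow_def_of_pos hp0, mul_comm]

lemma norm_ct (c : ℕ → ℂ) (D : ℝ) (hc : ∀ p, ‖c p‖ ≤ D) (z : ℂ) (p : ℕ) :
    ‖ct c z p‖ ≤ D * (p : ℝ) ^ (-(1 + z.re)) := by
  have hD : 0 ≤ D := (norm_nonneg _).trans (hc 0)
  unfold ct
  split_ifs with hp
  · have hp0 : (0 : ℝ) < p := by exact_mod_cast hp.pos
    rw [norm_mul, norm_div, Complex.norm_natCast, norm_exp_log z hp.one_le]
    have h4 : (p : ℝ) ^ (-(1 + z.re)) = (1 / p) * (p : ℝ) ^ (-z.re) := by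
      rw [one_div, ← Real.rpow_neg_one, ← Real.rpow_add hp0]
      congr 1
      ring
    rw [h4, ← mul_assoc, mul_one_div]
    gcongr
    exact hc p
  · rw [norm_zero]
    positivity

lemma summable_ct (c : ℕ → ℂ) (D : ℝ) (hc : ∀ p, ‖c p‖ ≤ D) (z : ℂ) (hz : 0 < z.re) :
    Summable (ct c z) := by
  refine Summable.of_norm_bounded ?_ (norm_ct c D hc z)
  exact (Real.summable_nat_rpow.2 (by linarith)).mul_left D

lemma exp_mul_term (c : ℕ → ℂ) (τ : ℝ) (z : ℂ) (p : ℕ) :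
    Complex.exp (-z * Real.log p) * term c τ p = ct c (z + τ * Complex.I) p := by
  unfold term ct
  split_ifs
  · rw [mul_left_comm, ← Complex.exp_add]
    congr 2
    ring
  · rw [mul_zero]

/-- The angular limit of the prime sum. -/
lemma ct_angle (c : ℕ → ℂ) (D : ℝ) (hc : ∀ p, ‖c p‖ ≤ D) (τ : ℝ) (l : ℂ)
    (hl : Tendsto (ps c τ) atTop (𝓝 l)) (K : ℝ) :
    Tendsto (fun z : ℂ => ∑' p, ct c (z + τ * Complex.I) p)
      (𝓝[{z : ℂ | 0 < z.re ∧ ‖z‖ ≤ K * z.re}] 0) (𝓝 l) := by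
  have h1 := abel_stolz (term c τ) l hl (fun z hz => by
    simp only [exp_mul_term]
    exact summable_ct c D hc _ (by simpa using hz)) K
  simpa only [exp_mul_term] using h1

/-! ### The abstract theorem -/

variable {n : ℕ}

/-- The limit of the prime sum, if it exists. -/
noncomputable def lm (c : ℕ → ℂ) (τ : ℝ) : ℂ :=
  open Classical in if h : ∃ l, Tendsto (ps c τ) atTop (𝓝 l) then h.choose else 0

lemma lm_spec {c : ℕ → ℂ} {τ : ℝ} (h : τ ∉ divSet c) : Tendsto (ps c τ) atTop (𝓝 (lm c τ)) := by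
  have h' : ∃ l, Tendsto (ps c τ) atTop (𝓝 l) := by
    by_contra hcon
    exact h hcon
  unfold lm
  rw [dif_pos h']
  exact h'.choose_spec

/-- The exceptional set. -/
def exc (c : Fin n → ℕ → ℂ) (h : Fin n → ℝ) : Set ℝ := ⋃ j, (fun τ => τ + h j) ⁻¹' divSet (c j)

lemma dimH_exc (c : Fin n → ℕ → ℂ) (D : ℝ) (hc : ∀ j p, ‖c j p‖ ≤ D) (h : Fin n → ℝ) :
    dimH (exc c h) = 0 := by
  unfold exc
  rw [dimH_iUnion]
  have h1 : ∀ j, dimH ((fun τ => τ + h j) ⁻¹' divSet (c j)) = 0 := by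
    intro j
    have h2 : (fun τ => τ + h j) ⁻¹' divSet (c j) = (fun τ => τ + (-h j)) '' divSet (c j) := by
      ext τ
      simp only [Set.mem_preimage, Set.mem_image]
      constructor
      · intro hτ
        exact ⟨_, hτ, by ring⟩
      · rintro ⟨x, hx, rfl⟩
        simpa using hx
    rw [h2, (isometry_add_right (-h j)).dimH_image, dimH_divSet (c j) D (hc j)]
  simp only [h1]
  simp

lemma exc_null (c : Fin n → ℕ → ℂ) (D : ℝ) (hc : ∀ j p, ‖c j p‖ ≤ D) (h : Fin n → ℝ) :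
    volume (exc c h) = 0 := by
  have h1 : dimH (exc c h) < (1 : NNReal) := by
    rw [dimH_exc c D hc h]
    simp
  have h2 := hausdorffMeasure_of_dimH_lt h1
  rw [NNReal.coe_one, hausdorffMeasure_real] at h2
  exact h2

/-- The angular limit. -/
lemma ang_lim (c : ℕ → ℂ) (D : ℝ) (hc : ∀ p, ‖c p‖ ≤ D) (R : ℂ → ℂ)
    (hRc : ContinuousOn R {z | 0 ≤ z.re}) (σ₀ : ℝ) (Λ : ℂ → ℂ)
    (hΛ : ∀ s, σ₀ < s.re → Λ s = (∑' p, ct c (s - σ₀) p) + R (s - σ₀)) (t : ℝ) (ht : t ∉ divSet c)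
    (K : ℝ) :
    Tendsto Λ (𝓝[{s : ℂ | σ₀ < s.re ∧ ‖s - ((σ₀ : ℂ) + (t : ℂ) * Complex.I)‖ ≤ K * (s.re - σ₀)}]
      ((σ₀ : ℂ) + (t : ℂ) * Complex.I)) (𝓝 (lm c t + R ((t : ℂ) * Complex.I))) := by
  set s₀ : ℂ := (σ₀ : ℂ) + (t : ℂ) * Complex.I with hs₀
  have hre : s₀.re = σ₀ := by simp [hs₀]
  set A := {s : ℂ | σ₀ < s.re ∧ ‖s - s₀‖ ≤ K * (s.re - σ₀)} with hA
  have h1 := ct_angle c D hc t _ (lm_spec ht) K
  have h2 : Tendsto (fun s : ℂ => s - s₀) (𝓝[A] s₀)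
      (𝓝[{z : ℂ | 0 < z.re ∧ ‖z‖ ≤ K * z.re}] 0) := by
    refine tendsto_nhdsWithin_iff.2 ⟨?_, ?_⟩
    · refine Tendsto.mono_left ?_ nhdsWithin_le_nhds
      have h5 : Continuous fun s : ℂ => s - s₀ := by fun_prop
      have h6 := h5.tendsto s₀
      rwa [sub_self] at h6
    · filter_upwards [self_mem_nhdsWithin] with s hs
      have h5 : (s - s₀).re = s.re - σ₀ := by rw [Complex.sub_re, hre]
      exact ⟨by rw [h5]; linarith [hs.1], by rw [h5]; exact hs.2⟩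
  have h3 : Tendsto (fun s : ℂ => R (s - σ₀)) (𝓝[A] s₀) (𝓝 (R ((t : ℂ) * Complex.I))) := by
    have h4 : ContinuousWithinAt R {z | 0 ≤ z.re} ((t : ℂ) * Complex.I) :=
      hRc _ (by simp)
    refine h4.tendsto.comp (tendsto_nhdsWithin_iff.2 ⟨?_, ?_⟩)
    · refine Tendsto.mono_left ?_ nhdsWithin_le_nhds
      have h5 : Continuous fun s : ℂ => s - (σ₀ : ℂ) := by fun_prop
      have h6 := h5.tendsto s₀
      have h7 : s₀ - (σ₀ : ℂ) = (t : ℂ) * Complex.I := by rw [hs₀]; ring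
      rwa [h7] at h6
    · filter_upwards [self_mem_nhdsWithin] with s hs
      show 0 ≤ (s - (σ₀ : ℂ)).re
      rw [Complex.sub_re, Complex.ofReal_re]
      linarith [hs.1]
  have h4 := (h1.comp h2).add h3
  refine h4.congr' ?_
  filter_upwards [self_mem_nhdsWithin] with s hs
  rw [hΛ s hs.1]
  simp only [Function.comp_apply]
  have h8 : s - s₀ + (t : ℂ) * Complex.I = s - σ₀ := by rw [hs₀]; ring
  rw [h8]

/-- The limit along the horizontal segment. -/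
lemma hor_lim (c : ℕ → ℂ) (D : ℝ) (hc : ∀ p, ‖c p‖ ≤ D) (R : ℂ → ℂ)
    (hRc : ContinuousOn R {z | 0 ≤ z.re}) (σ₀ : ℝ) (Λ : ℂ → ℂ)
    (hΛ : ∀ s, σ₀ < s.re → Λ s = (∑' p, ct c (s - σ₀) p) + R (s - σ₀)) (t : ℝ)
    (ht : t ∉ divSet c) :
    Tendsto (fun x : ℝ => Λ ((σ₀ : ℂ) + (t : ℂ) * Complex.I + x)) (𝓝[>] 0)
      (𝓝 (lm c t + R ((t : ℂ) * Complex.I))) := by
  refine (ang_lim c D hc R hRc σ₀ Λ hΛ t ht 1).comp (tendsto_nhdsWithin_iff.2 ⟨?_, ?_⟩)
  · refine Tendsto.mono_left ?_ nhdsWithin_le_nhds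
    have h5 : Continuous fun x : ℝ => (σ₀ : ℂ) + (t : ℂ) * Complex.I + x := by fun_prop
    have h6 := h5.tendsto 0
    simpa using h6
  · filter_upwards [self_mem_nhdsWithin] with x hx
    have hx0 : (0 : ℝ) < x := hx
    have hre : ((σ₀ : ℂ) + (t : ℂ) * Complex.I + x).re = σ₀ + x := by simp
    refine ⟨by rw [hre]; linarith, ?_⟩
    rw [add_sub_cancel_left, Complex.norm_real, Real.norm_of_nonneg hx0.le, hre]
    linarith

end Pool.Agent.N903.ED
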