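import Pool.Agent.N903.ED.Dens
import Pool.Agent.N903.ED.Tail
import Pool.Agent.Helper240.ZU.C0
import Pool.Agent.Helper240.ZU.C2

/-!
# Joint values of prime sums on the edge: the weighted measure
-/

set_option autoImplicit false

namespace Pool.Agent.N903.ED

open Finset Filter Topology MeasureTheory Pool.Agent.W350.Edge
open scoped ENNReal

/-- The phase `p^{-iτ}`. -/
noncomputable def ph (p : ℕ) (τ : ℝ) : ℂ := Complex.exp (-(τ * Real.log p) * Complex.I)

lemma norm_ph (p : ℕ) (τ : ℝ) : ‖ph p τ‖ = 1 := by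
  unfold ph
  rw [Complex.norm_exp, Complex.mul_I_re, ← Complex.ofReal_mul, ← Complex.ofReal_neg,
    Complex.ofReal_im, neg_zero, Real.exp_zero]

lemma ph_eq (p : ℕ) (hp : 1 ≤ p) (τ : ℝ) : (p : ℂ) ^ (-(τ * Complex.I)) = ph p τ := by
  rw [ZU.J_c0.hz_term p hp τ, ph]
  congr 1
  ring

lemma continuous_ph (p : ℕ) : Continuous (ph p) := by
  unfold ph
  fun_prop

lemma term_eq (a : ℕ → ℂ) (τ : ℝ) (p : ℕ) (hp : p.Prime) : term a τ p = a p / p * ph p τ := by
  unfold term ph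
  rw [if_pos hp]

lemma continuous_term (a : ℕ → ℂ) (p : ℕ) : Continuous fun τ => term a τ p := by
  unfold term
  split_ifs
  · fun_prop
  · exact continuous_const

/-- The part of the sum over the primes of `[m, m')`. -/
noncomputable def mid (a : ℕ → ℂ) (m m' : ℕ) (τ : ℝ) : ℂ := ∑ p ∈ Ico m m', term a τ p

lemma continuous_mid (a : ℕ → ℂ) (m m' : ℕ) : Continuous (mid a m m') :=
  continuous_finsetSum _ fun p _ => continuous_term a p

lemma ps_eq_mid (a : ℕ → ℂ) {m m' : ℕ} (h : m ≤ m') (τ : ℝ) :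
    ps a τ m' = ps a τ m + mid a m m' τ := by
  unfold ps mid
  rw [sum_Ico_eq_sub _ h]
  ring

/-- The mean square of the product of the weight polynomial with the middle part. -/
lemma mid_mean (S : Finset ℕ) (b : ℕ → ℂ) (M M' : ℕ)
    (hS : ∀ n ∈ S, 1 ≤ n ∧ ∀ p : ℕ, p.Prime → p ∣ n → p ≤ M) (hb : ∀ n ∈ S, ‖b n‖ = 1)
    (a : ℕ → ℂ) (D : ℝ) (ha : ∀ p, ‖a p‖ ≤ D) (ε : ℝ) (hε : 0 < ε) :
    ∃ T₀ : ℝ, 0 < T₀ ∧ ∀ T ≥ T₀,
      ∫ t in (0 : ℝ)..T, ‖ZU.Dir S b t‖ ^ 2 * ‖mid a (M + 1) M' t‖ ^ 2 ≤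
        T * (S.card * (D ^ 2 * ∑ p ∈ Ico (M + 1) M', 1 / (p : ℝ) ^ 2) + ε) := by
  classical
  have hD : 0 ≤ D := (norm_nonneg _).trans (ha 0)
  set F := (Ico (M + 1) M').filter Nat.Prime with hF
  set P := S ×ˢ F with hP
  set y : ℕ × ℕ → ℂ := fun q => b q.1 * (a q.2 / q.2) with hy
  have hinj : Set.InjOn (fun q : ℕ × ℕ => q.1 * q.2) (P : Set (ℕ × ℕ)) := by
    rintro ⟨m, p⟩ hmp ⟨m', p'⟩ hmp' h
    simp only [hP, hF, coe_product, Set.mem_prod, mem_coe, mem_filter, mem_Ico] at hmp hmp' h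
    have hp := hmp.2.2
    have hp' := hmp'.2.2
    have hndvd : ¬ p ∣ m' := by
      intro hd
      have := (hS m' hmp'.1).2 p hp hd
      omega
    have h1 : p ∣ m' * p' := by
      rw [← h]
      exact dvd_mul_left _ _
    have h2 : p ∣ p' := (hp.dvd_mul.1 h1).resolve_left hndvd
    have h3 : p = p' := (Nat.prime_dvd_prime_iff_eq hp hp').1 h2
    subst h3
    have h4 : m = m' := Nat.eq_of_mul_eq_mul_right hp.pos h
    rw [h4]
  set S' := P.image (fun q : ℕ × ℕ => q.1 * q.2) with hS'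
  set x : ℕ → ℂ := fun k => ∑ q ∈ P, if q.1 * q.2 = k then y q else 0 with hx
  have hxq : ∀ q ∈ P, x (q.1 * q.2) = y q := by
    intro q hq
    rw [hx]
    simp only
    rw [sum_eq_single q]
    · rw [if_pos rfl]
    · intro q' hq' hne
      rw [if_neg]
      intro h
      exact hne (hinj (mem_coe.2 hq') (mem_coe.2 hq) h)
    · intro h
      exact absurd hq h
  have hynorm : ∀ q ∈ P, ‖y q‖ ≤ D / q.2 := by
    intro q hq
    rw [hP, mem_product] at hq
    rw [hy]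
    simp only
    rw [norm_mul, hb _ hq.1, one_mul, norm_div, Complex.norm_natCast]
    exact div_le_div_of_nonneg_right (ha _) (Nat.cast_nonneg _)
  have hpos : ∀ q ∈ P, 1 ≤ q.1 ∧ 1 ≤ q.2 ∧ q.2.Prime := by
    intro q hq
    rw [hP, mem_product, hF, mem_filter] at hq
    exact ⟨(hS _ hq.1).1, hq.2.2.one_le, hq.2.2⟩
  have hS'1 : ∀ k ∈ S', 1 ≤ k := by
    intro k hk
    obtain ⟨q, hq, rfl⟩ := mem_image.1 hk
    obtain ⟨h1, h2, -⟩ := hpos q hq
    exact Nat.one_le_iff_ne_zero.2 (Nat.mul_ne_zero (by omega) (by omega))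
  have hx1 : ∀ k ∈ S', ‖x k‖ ≤ D := by
    intro k hk
    obtain ⟨q, hq, rfl⟩ := mem_image.1 hk
    rw [hxq q hq]
    refine (hynorm q hq).trans (div_le_self hD ?_)
    exact_mod_cast (hpos q hq).2.1
  have hsq : ∑ k ∈ S', ‖x k‖ ^ 2 ≤ S.card * (D ^ 2 * ∑ p ∈ Ico (M + 1) M', 1 / (p : ℝ) ^ 2) := by
    rw [hS', sum_image hinj]
    calc ∑ q ∈ P, ‖x (q.1 * q.2)‖ ^ 2 ≤ ∑ q ∈ P, D ^ 2 * (1 / (q.2 : ℝ) ^ 2) := by
          refine sum_le_sum fun q hq => ?_
          rw [hxq q hq]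
          refine (pow_le_pow_left₀ (norm_nonneg _) (hynorm q hq) 2).trans (le_of_eq ?_)
          rw [div_pow]
          ring
      _ = S.card * (D ^ 2 * ∑ p ∈ F, 1 / (p : ℝ) ^ 2) := by
          rw [hP, sum_product]
          simp only
          rw [sum_const, nsmul_eq_mul, ← mul_sum]
      _ ≤ _ := by
          refine mul_le_mul_of_nonneg_left ?_ (Nat.cast_nonneg _)
          refine mul_le_mul_of_nonneg_left ?_ (by positivity)
          exact sum_le_sum_of_subset_of_nonneg (filter_subset _ _) fun _ _ _ => by positivity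
  have hid : ∀ t : ℝ, ‖ZU.Dir S b t‖ ^ 2 * ‖mid a (M + 1) M' t‖ ^ 2 = ‖ZU.Dir S' x t‖ ^ 2 := by
    intro t
    rw [← mul_pow, ← norm_mul]
    congr 2
    have h1 : mid a (M + 1) M' t = ∑ p ∈ F, a p / p * (p : ℂ) ^ (-(t * Complex.I)) := by
      unfold mid
      rw [hF, sum_filter]
      refine sum_congr rfl fun p _ => ?_
      split_ifs with hp
      · rw [term_eq a t p hp, ph_eq p hp.one_le]
      · unfold term
        rw [if_neg hp]
    rw [h1]
    unfold ZU.Dir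
    rw [sum_mul_sum, ← sum_product', hS', sum_image hinj]
    refine sum_congr rfl fun q hq => ?_
    rw [hxq q hq, Nat.cast_mul, Complex.natCast_mul_natCast_cpow, hy]
    ring
  obtain ⟨T₀, hT₀, hT⟩ := ZU.dir_mv S' hS'1 D ε hε
  refine ⟨T₀, hT₀, fun T hTT => ?_⟩
  have hTpos : 0 < T := lt_of_lt_of_le hT₀ hTT
  rw [intervalIntegral.integral_congr fun t _ => hid t]
  have h1 := (abs_le.1 (hT T hTT x hx1)).2
  have h2 := mul_le_mul_of_nonneg_left hsq hTpos.le
  linarith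

lemma continuous_Dir (S : Finset ℕ) (hS : ∀ n ∈ S, 1 ≤ n) (b : ℕ → ℂ) : Continuous (ZU.Dir S b) := by
  unfold ZU.Dir
  refine continuous_finsetSum _ fun n hn => continuous_const.mul ?_
  have : (fun t : ℝ => (n : ℂ) ^ (-((t : ℂ) * Complex.I))) = ph n := by
    funext t
    exact ph_eq n (hS n hn) t
  rw [this]
  exact continuous_ph n

lemma norm_Dir_le (S : Finset ℕ) (hS : ∀ n ∈ S, 1 ≤ n) (b : ℕ → ℂ) (hb : ∀ n ∈ S, ‖b n‖ = 1)
    (t : ℝ) : ‖ZU.Dir S b t‖ ≤ S.card := by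
  unfold ZU.Dir
  refine (norm_sum_le _ _).trans ?_
  have h1 : ∀ n ∈ S, ‖b n * (n : ℂ) ^ (-((t : ℂ) * Complex.I))‖ = 1 := by
    intro n hn
    rw [norm_mul, hb n hn, ph_eq n (hS n hn), norm_ph, one_mul]
  rw [sum_congr rfl h1]
  simp

/-- The weighted measure on `(0, T]`. -/
noncomputable def wm (S : Finset ℕ) (b : ℕ → ℂ) (T : ℝ) : Measure ℝ :=
  (volume.restrict (Set.Ioc 0 T)).withDensity fun t => ENNReal.ofReal (‖ZU.Dir S b t‖ ^ 2)

lemma wm_le (S : Finset ℕ) (hS : ∀ n ∈ S, 1 ≤ n) (b : ℕ → ℂ) (hb : ∀ n ∈ S, ‖b n‖ = 1) (T : ℝ)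
    (A : Set ℝ) : wm S b T A ≤ ENNReal.ofReal ((S.card : ℝ) ^ 2) * volume (A ∩ Set.Ioc 0 T) := by
  have h1 : wm S b T ≤ ENNReal.ofReal ((S.card : ℝ) ^ 2) • volume.restrict (Set.Ioc 0 T) := by
    unfold wm
    rw [← withDensity_const]
    refine withDensity_mono (Eventually.of_forall fun t => ?_)
    exact ENNReal.ofReal_le_ofReal
      (pow_le_pow_left₀ (norm_nonneg _) (norm_Dir_le S hS b hb t) 2)
  refine (Measure.le_iff'.1 h1 A).trans ?_
  rw [Measure.smul_apply, smul_eq_mul, Measure.restrict_apply' measurableSet_Ioc]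

lemma wm_univ (S : Finset ℕ) (hS : ∀ n ∈ S, 1 ≤ n) (b : ℕ → ℂ) (T : ℝ) (hT : 0 ≤ T) :
    wm S b T Set.univ = ENNReal.ofReal (∫ t in (0 : ℝ)..T, ‖ZU.Dir S b t‖ ^ 2) := by
  unfold wm
  have hc : Continuous fun t => ‖ZU.Dir S b t‖ ^ 2 := (continuous_Dir S hS b).norm.pow 2
  rw [withDensity_apply _ MeasurableSet.univ, Measure.restrict_univ,
    intervalIntegral.integral_of_le hT, ofReal_integral_eq_lintegral_ofReal
      (hc.integrableOn_Icc.mono_set Set.Ioc_subset_Icc_self)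
      (Eventually.of_forall fun τ => by positivity)]

/-- Chebyshev's inequality for the weighted measure. -/
lemma wm_cheb (S : Finset ℕ) (hS : ∀ n ∈ S, 1 ≤ n) (b : ℕ → ℂ) (T : ℝ) (hT : 0 ≤ T)
    (g : ℝ → ℂ) (hg : Continuous g) (δ B : ℝ) (hδ : 0 < δ)
    (hB : ∫ t in (0 : ℝ)..T, ‖ZU.Dir S b t‖ ^ 2 * ‖g t‖ ^ 2 ≤ B) :
    wm S b T {t | δ ≤ ‖g t‖} ≤ ENNReal.ofReal (B / δ ^ 2) := by
  have hc : Continuous fun t => ‖ZU.Dir S b t‖ ^ 2 := (continuous_Dir S hS b).norm.pow 2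
  have hgc : Continuous fun t => ‖g t‖ ^ 2 := hg.norm.pow 2
  have hm : Measurable fun t => ENNReal.ofReal (‖g t‖ ^ 2) :=
    ENNReal.measurable_ofReal.comp hgc.measurable
  have h1 : {t | δ ≤ ‖g t‖} ⊆ {t | ENNReal.ofReal (δ ^ 2) ≤ ENNReal.ofReal (‖g t‖ ^ 2)} :=
    fun t ht => ENNReal.ofReal_le_ofReal (pow_le_pow_left₀ hδ.le ht 2)
  have hδ2 : 0 < δ ^ 2 := by positivity
  refine (measure_mono h1).trans ?_
  refine (meas_ge_le_lintegral_div hm.aemeasurable (ENNReal.ofReal_pos.2 hδ2).ne'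
    ENNReal.ofReal_ne_top).trans ?_
  rw [ENNReal.ofReal_div_of_pos hδ2]
  gcongr
  have hm' : Measurable fun t => ENNReal.ofReal (‖ZU.Dir S b t‖ ^ 2) :=
    ENNReal.measurable_ofReal.comp hc.measurable
  unfold wm
  rw [lintegral_withDensity_eq_lintegral_mul _ hm' hm]
  have h2 : ∀ t, ((fun t => ENNReal.ofReal (‖ZU.Dir S b t‖ ^ 2)) *
      fun t => ENNReal.ofReal (‖g t‖ ^ 2)) t =
      ENNReal.ofReal (‖ZU.Dir S b t‖ ^ 2 * ‖g t‖ ^ 2) := by
    intro t
    rw [Pi.mul_apply, ENNReal.ofReal_mul (by positivity)]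
  have hcg : Continuous fun t => ‖ZU.Dir S b t‖ ^ 2 * ‖g t‖ ^ 2 := hc.mul hgc
  rw [lintegral_congr h2, ← ofReal_integral_eq_lintegral_ofReal
      (hcg.integrableOn_Icc.mono_set Set.Ioc_subset_Icc_self)
      (Eventually.of_forall fun τ => by positivity),
    ← intervalIntegral.integral_of_le hT]
  exact ENNReal.ofReal_le_ofReal hB

variable {n : ℕ}

/-- The vectors `c_p = (a_j(p) / p)_j`. -/
noncomputable def cv (a : Fin n → ℕ → ℂ) (p : ℕ) : EuclideanSpace ℂ (Fin n) :=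
  WithLp.toLp 2 fun j => if p.Prime then a j p / p else 0

lemma cv_apply (a : Fin n → ℕ → ℂ) (p : ℕ) (j : Fin n) :
    cv a p j = if p.Prime then a j p / p else 0 := rfl

lemma norm_cv_sq (a : Fin n → ℕ → ℂ) (D : ℝ) (ha : ∀ j p, ‖a j p‖ ≤ D) (p : ℕ) :
    ‖cv a p‖ ^ 2 ≤ n * (D ^ 2 * (1 / (p : ℝ) ^ 2)) := by
  rw [EuclideanSpace.norm_sq_eq]
  have h1 : ∀ j ∈ (Finset.univ : Finset (Fin n)), ‖cv a p j‖ ^ 2 ≤ D ^ 2 * (1 / (p : ℝ) ^ 2) := by
    intro j _
    rw [cv_apply]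
    split_ifs
    · rw [norm_div, Complex.norm_natCast, div_pow, mul_one_div]
      exact div_le_div_of_nonneg_right (pow_le_pow_left₀ (norm_nonneg _) (ha j p) 2) (by positivity)
    · rw [norm_zero, zero_pow two_ne_zero]
      positivity
  refine (sum_le_sum h1).trans (le_of_eq ?_)
  rw [sum_const, card_univ, Fintype.card_fin, nsmul_eq_mul]

/-- **Joint values of prime sums.**  If no combination `∑_j u_j a_j(p) / p` converges absolutely,
then the values `∑_p a_j(p) p^{-1-iτ}` and the phases `p^{-iτ}`, `p < N₀`, come near every point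
with positive lower density. -/
theorem density_main (a : Fin n → ℕ → ℂ) (D : ℝ) (ha : ∀ j p, ‖a j p‖ ≤ D)
    (hdiv : ∀ u : Fin n → ℂ, u ≠ 0 →
      ¬ Summable fun p : ℕ => if p.Prime then ‖∑ j, u j * a j p‖ / p else 0)
    (w : Fin n → ℂ) (τ₀ : ℝ) (N₀ : ℕ) (ε : ℝ) (hε : 0 < ε) :
    ∃ c : ℝ, 0 < c ∧ ∃ T₀ : ℝ, 0 < T₀ ∧ ∀ T ≥ T₀, ENNReal.ofReal (c * T) ≤
      volume {τ : ℝ | τ ∈ Set.Ioc 0 T ∧
        (∀ j, ∀ l, Tendsto (ps (a j) τ) atTop (𝓝 l) → ‖l - ps (a j) τ₀ N₀ - w j‖ < ε) ∧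
        ∀ p < N₀, p.Prime → ‖ph p τ - ph p τ₀‖ < ε} := by
  classical
  have hD1 : ∃ D' : ℝ, 1 ≤ D' ∧ ∀ j p, ‖a j p‖ ≤ D' :=
    ⟨max D 1, le_max_right _ _, fun j p => (ha j p).trans (le_max_left _ _)⟩
  clear ha D
  obtain ⟨D, hD1, ha⟩ := hD1
  have hn1 : (0 : ℝ) < (n : ℝ) + 1 := by positivity
  -- square summability
  have hinv : Summable fun p : ℕ => 1 / (p : ℝ) ^ 2 := Real.summable_one_div_nat_pow.2 (by norm_num)
  have hsq : Summable fun p => ‖cv a p‖ ^ 2 :=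
    Summable.of_nonneg_of_le (fun p => by positivity) (norm_cv_sq a D ha)
      ((hinv.mul_left (D ^ 2)).mul_left (n : ℝ))
  have hdiv' : ∀ u : Fin n → ℂ, u ≠ 0 → ¬ Summable fun p : ℕ => ‖∑ j, u j * cv a p j‖ := by
    intro u hu hs
    refine hdiv u hu (hs.congr fun p => ?_)
    simp only [cv_apply]
    split_ifs with hp
    · have : ∑ j, u j * (a j p / p) = (∑ j, u j * a j p) / p := by
        rw [sum_div]
        exact sum_congr rfl fun j _ => by ring
      rw [this, norm_div, Complex.norm_natCast]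
    · simp
  obtain ⟨m₀, hm₀⟩ := dense_unimodular (cv a) hdiv' hsq N₀ (WithLp.toLp 2 w) (ε / 4) (by positivity)
  -- the choice of `m`
  set κ : ℝ := (ε / 4) ^ 2 / (32 * (n + 1) * D ^ 2) with hκ
  have hκ0 : 0 < κ := by positivity
  have htail : Tendsto (fun N => ∑' p : ℕ, 1 / ((p + N : ℕ) : ℝ) ^ 2) atTop (𝓝 0) :=
    tendsto_sum_nat_add fun p : ℕ => 1 / (p : ℝ) ^ 2
  obtain ⟨m, hm1, hm2, hm3⟩ := ((htail.eventually (gt_mem_nhds hκ0)).and
    ((eventually_ge_atTop m₀).and (eventually_ge_atTop N₀))).exists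
  obtain ⟨β', hβ', hβw⟩ := hm₀ (m + 1) (by omega)
  have htl : ∀ M', ∑ p ∈ Ico (m + 1) M', 1 / (p : ℝ) ^ 2 ≤ κ := by
    intro M'
    have h1 : ∑ p ∈ Ico m M', 1 / (p : ℝ) ^ 2 ≤ ∑' p : ℕ, 1 / ((p + m : ℕ) : ℝ) ^ 2 := by
      rw [sum_Ico_eq_sum_range]
      have h3 : ∀ k : ℕ, 1 / ((m + k : ℕ) : ℝ) ^ 2 = 1 / ((k + m : ℕ) : ℝ) ^ 2 := fun k => by
        rw [add_comm m k]
      simp only [h3]
      exact ((summable_nat_add_iff m).2 hinv).sum_le_tsum _ fun _ _ => by positivity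
    have h2 : ∑ p ∈ Ico (m + 1) M', 1 / (p : ℝ) ^ 2 ≤ ∑ p ∈ Ico m M', 1 / (p : ℝ) ^ 2 :=
      sum_le_sum_of_subset_of_nonneg (Ico_subset_Ico_left (by omega)) fun _ _ _ => by positivity
    linarith
  set β : ℕ → ℂ := fun p => if p < N₀ then ph p τ₀ else β' p with hβ
  have hβ1 : ∀ p, ‖β p‖ = 1 := by
    intro p
    rw [hβ]
    simp only
    split_ifs
    · exact norm_ph p τ₀
    · exact hβ' p
  -- the small parameter for the phases
  set ε₁ : ℝ := ε / (4 * (m + 1) * D) with hε₁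
  have hm0 : (0 : ℝ) < (m : ℝ) + 1 := by positivity
  have hε₁0 : 0 < ε₁ := by positivity
  obtain ⟨S, b, hSne, hS, hb, Tw, hTw0, hTw⟩ := ZU.weight_exists m β hβ1
    (ε₁ ^ 2 / (8 * (m + 1))) (by positivity)
  have hS1 : ∀ k ∈ S, 1 ≤ k := fun k hk => (hS k hk).1
  have hcS : (0 : ℝ) < S.card := by exact_mod_cast hSne.card_pos
  have hcS1 : (1 : ℝ) ≤ S.card := by exact_mod_cast hSne.card_pos
  -- the tails
  have htails : ∀ j, ∃ J₀ : ℕ, ∀ J, J₀ ≤ J → ∀ T : ℝ, 1 ≤ T →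
      volume {τ : ℝ | τ ∈ Set.Ioc 0 T ∧ ∃ l, Tendsto (ps (a j) τ) atTop (𝓝 l) ∧
        ε / 4 ≤ ‖l - ps (a j) τ (NN 3 J)‖} ≤ ENNReal.ofReal (1 / (8 * (n + 1) * S.card) * T) :=
    fun j => tail_small (a j) D (ha j) (ε / 4) _ (by positivity) (by positivity)
  choose J₀ hJ₀ using htails
  obtain ⟨J, hJ1, hJ2⟩ : ∃ J, (∀ j, J₀ j ≤ J) ∧ m + 1 ≤ NN 3 J := by
    have h1 := (tendsto_NN 3).eventually (eventually_ge_atTop (m + 1))
    obtain ⟨J, hJ, hJ'⟩ := (h1.and (eventually_ge_atTop (∑ j, J₀ j))).exists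
    exact ⟨J, fun j => (single_le_sum (f := J₀) (fun _ _ => Nat.zero_le _) (mem_univ j)).trans hJ',
      hJ⟩
  set M' := NN 3 J with hM'
  -- the middle parts
  have hmids : ∀ j, ∃ T₀ : ℝ, 0 < T₀ ∧ ∀ T ≥ T₀,
      ∫ t in (0 : ℝ)..T, ‖ZU.Dir S b t‖ ^ 2 * ‖mid (a j) (m + 1) M' t‖ ^ 2 ≤
        T * (S.card * (D ^ 2 * ∑ p ∈ Ico (m + 1) M', 1 / (p : ℝ) ^ 2) + D ^ 2 * κ) :=
    fun j => mid_mean S b m M' hS hb (a j) D (ha j) (D ^ 2 * κ) (by positivity)
  choose Tm hTm0 hTm using hmids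
  obtain ⟨Tv, hTv0, hTv⟩ := ZU.dir_mv S hS1 1 (1 / 8) (by norm_num)
  refine ⟨1 / (2 * S.card), by positivity, 1 + Tw + Tv + ∑ j, Tm j,
    by have := sum_nonneg fun j (_ : j ∈ Finset.univ) => (hTm0 j).le
       positivity, fun T hT => ?_⟩
  have hTmsum : 0 ≤ ∑ j, Tm j := sum_nonneg fun j _ => (hTm0 j).le
  have hT1 : 1 ≤ T := by linarith
  have hT0 : 0 < T := by linarith
  have hTTw : Tw ≤ T := by linarith
  have hTTv : Tv ≤ T := by linarith
  have hTTm : ∀ j, Tm j ≤ T := fun j => by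
    have := single_le_sum (f := Tm) (fun i _ => (hTm0 i).le) (mem_univ j)
    linarith
  set G : Set ℝ := {τ : ℝ | τ ∈ Set.Ioc 0 T ∧
        (∀ j, ∀ l, Tendsto (ps (a j) τ) atTop (𝓝 l) → ‖l - ps (a j) τ₀ N₀ - w j‖ < ε) ∧
        ∀ p < N₀, p.Prime → ‖ph p τ - ph p τ₀‖ < ε} with hG
  set Z : ℕ → Set ℝ := fun p => {t | ε₁ ≤ ‖ph p t - β p‖} with hZ
  set Y : Fin n → Set ℝ := fun j => {t | ε / 4 ≤ ‖mid (a j) (m + 1) M' t‖} with hY
  set X : Fin n → Set ℝ := fun j => {τ : ℝ | τ ∈ Set.Ioc 0 T ∧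
    ∃ l, Tendsto (ps (a j) τ) atTop (𝓝 l) ∧ ε / 4 ≤ ‖l - ps (a j) τ (NN 3 J)‖} with hX
  have hcover : Set.Ioc 0 T ⊆ G ∪ ((⋃ p ∈ ZU.pr m, Z p) ∪ ((⋃ j, Y j) ∪ ⋃ j, X j)) := by
    intro τ hτ
    by_contra hcon
    simp only [Set.mem_union, not_or, Set.mem_iUnion, not_exists] at hcon
    obtain ⟨hnG, hnZ, hnY, hnX⟩ := hcon
    have hZ' : ∀ p, p.Prime → p < m + 1 → ‖ph p τ - β p‖ < ε₁ := by
      intro p hp hpm
      have h1 : p ∈ ZU.pr m := by
        unfold ZU.pr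
        exact mem_filter.2 ⟨mem_Icc.2 ⟨hp.one_le, by omega⟩, hp⟩
      have h2 := hnZ p h1
      simp only [hZ, Set.mem_ofPred_eq, not_le] at h2
      exact h2
    refine hnG ⟨hτ, fun j l hl => ?_, fun p hp hpp => ?_⟩
    · have hY' : ‖mid (a j) (m + 1) M' τ‖ < ε / 4 := by
        have h2 := hnY j
        simp only [hY, Set.mem_ofPred_eq, not_le] at h2
        exact h2
      have hX' : ‖l - ps (a j) τ M'‖ < ε / 4 := by
        by_contra h
        exact hnX j ⟨hτ, l, hl, not_lt.1 h⟩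
      have h3 : ps (a j) τ M' = ps (a j) τ (m + 1) + mid (a j) (m + 1) M' τ :=
        ps_eq_mid (a j) hJ2 τ
      have h4 : ps (a j) τ (m + 1) = ps (a j) τ N₀ + mid (a j) N₀ (m + 1) τ :=
        ps_eq_mid (a j) (by omega) τ
      set Q : ℂ := ∑ p ∈ Ico N₀ (m + 1), β' p * cv a p j with hQ
      have h5 : ‖Q - w j‖ < ε / 4 := by
        have h6 : Q - w j = (∑ p ∈ Ico N₀ (m + 1), β' p • cv a p - WithLp.toLp 2 w) j := by
          rw [hQ, PiLp.sub_apply, WithLp.ofLp_sum, Finset.sum_apply]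
          rfl
        rw [h6]
        exact (PiLp.norm_apply_le _ j).trans_lt hβw
      have h6 : ‖ps (a j) τ (m + 1) - ps (a j) τ₀ N₀ - Q‖ ≤ ε / 4 := by
        have h7 : ps (a j) τ (m + 1) - ps (a j) τ₀ N₀ - Q =
            ∑ p ∈ range (m + 1), (if p.Prime then a j p / p * (ph p τ - β p) else 0) := by
          have h8 : ∑ p ∈ range (m + 1), (if p.Prime then a j p / p * (ph p τ - β p) else 0) =
              ∑ p ∈ range N₀, (if p.Prime then a j p / p * (ph p τ - β p) else 0) +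
              ∑ p ∈ Ico N₀ (m + 1), (if p.Prime then a j p / p * (ph p τ - β p) else 0) := by
            rw [← sum_range_add_sum_Ico _ (by omega : N₀ ≤ m + 1)]
          rw [h8, h4, hQ]
          unfold ps mid
          have h9 : ∑ p ∈ range N₀, (if p.Prime then a j p / p * (ph p τ - β p) else 0) =
              ∑ p ∈ range N₀, term (a j) τ p - ∑ p ∈ range N₀, term (a j) τ₀ p := by
            rw [← sum_sub_distrib]
            refine sum_congr rfl fun p hp => ?_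
            split_ifs with hpp
            · rw [term_eq _ _ _ hpp, term_eq _ _ _ hpp, hβ]
              simp only
              rw [if_pos (mem_range.1 hp)]
              ring
            · unfold term
              rw [if_neg hpp, if_neg hpp, sub_zero]
          have h10 : ∑ p ∈ Ico N₀ (m + 1), (if p.Prime then a j p / p * (ph p τ - β p) else 0) =
              ∑ p ∈ Ico N₀ (m + 1), term (a j) τ p - ∑ p ∈ Ico N₀ (m + 1), β' p * cv a p j := by
            rw [← sum_sub_distrib]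
            refine sum_congr rfl fun p hp => ?_
            rw [cv_apply]
            split_ifs with hpp
            · rw [term_eq _ _ _ hpp, hβ]
              simp only
              rw [if_neg (by have := (mem_Ico.1 hp).1; omega)]
              ring
            · unfold term
              rw [if_neg hpp, mul_zero, sub_zero]
          rw [h9, h10]
          ring
        rw [h7]
        refine (norm_sum_le _ _).trans ?_
        have h8 : ∀ p ∈ range (m + 1),
            ‖(if p.Prime then a j p / p * (ph p τ - β p) else 0 : ℂ)‖ ≤ D * ε₁ := by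
          intro p hp
          split_ifs with hpp
          · rw [norm_mul, norm_div, Complex.norm_natCast]
            refine mul_le_mul ?_ (hZ' p hpp (mem_range.1 hp)).le (norm_nonneg _) (by linarith)
            refine (div_le_self (norm_nonneg _) ?_).trans (ha j p)
            exact_mod_cast hpp.one_le
          · rw [norm_zero]
            positivity
        refine (sum_le_sum h8).trans ?_
        rw [sum_const, card_range, nsmul_eq_mul, hε₁]
        push_cast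
        refine le_of_eq ?_
        field_simp
      have h7 : l - ps (a j) τ₀ N₀ - w j = (l - ps (a j) τ M') + mid (a j) (m + 1) M' τ +
          (ps (a j) τ (m + 1) - ps (a j) τ₀ N₀ - Q) + (Q - w j) := by
        rw [h3]
        ring
      rw [h7]
      have h8 := norm_add_le ((l - ps (a j) τ M') + mid (a j) (m + 1) M' τ +
          (ps (a j) τ (m + 1) - ps (a j) τ₀ N₀ - Q)) (Q - w j)
      have h9 := norm_add_le ((l - ps (a j) τ M') + mid (a j) (m + 1) M' τ)
          (ps (a j) τ (m + 1) - ps (a j) τ₀ N₀ - Q)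
      have h10 := norm_add_le (l - ps (a j) τ M') (mid (a j) (m + 1) M' τ)
      linarith
    · have h1 := hZ' p hpp (by omega)
      rw [hβ] at h1
      simp only at h1
      rw [if_pos hp] at h1
      refine h1.trans_le ?_
      rw [hε₁]
      refine div_le_self hε.le ?_
      have : (1 : ℝ) ≤ (m : ℝ) + 1 := by
        have : (0 : ℝ) ≤ (m : ℝ) := Nat.cast_nonneg _
        linarith
      nlinarith
  -- the weighted measures
  set ν := wm S b T with hν
  have hνIoc : ν (Set.Ioc 0 T) = ν Set.univ := by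
    rw [hν]
    unfold wm
    rw [withDensity_apply _ measurableSet_Ioc, withDensity_apply _ MeasurableSet.univ,
      Measure.restrict_restrict measurableSet_Ioc, Set.inter_self, Measure.restrict_univ]
  have hν1 : ENNReal.ofReal (7 / 8 * T * S.card) ≤ ν (Set.Ioc 0 T) := by
    rw [hνIoc, hν, wm_univ S hS1 b T hT0.le]
    refine ENNReal.ofReal_le_ofReal ?_
    have h1 := (abs_le.1 (hTv T hTTv b fun k hk => (hb k hk).le)).1
    have h2 : ∑ k ∈ S, ‖b k‖ ^ 2 = S.card := by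
      rw [sum_congr rfl fun k hk => by rw [hb k hk, one_pow]]
      simp
    rw [h2] at h1
    nlinarith
  have hνZ : ∀ p ∈ ZU.pr m, ν (Z p) ≤ ENNReal.ofReal (T * S.card / (8 * (m + 1))) := by
    intro p hp
    have hpp : p.Prime := (mem_filter.1 hp).2
    have hB := hTw T hTTw p hp
    have h1 : ∀ t : ℝ, ‖ZU.Dir S b t‖ ^ 2 * ‖(p : ℂ) ^ (-(t * Complex.I)) - β p‖ ^ 2 =
        ‖ZU.Dir S b t‖ ^ 2 * ‖ph p t - β p‖ ^ 2 := fun t => by rw [ph_eq p hpp.one_le]
    rw [intervalIntegral.integral_congr fun t _ => h1 t] at hB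
    have h2 := wm_cheb S hS1 b T hT0.le (fun t => ph p t - β p)
      ((continuous_ph p).sub continuous_const) ε₁ _ hε₁0 hB
    refine h2.trans (ENNReal.ofReal_le_ofReal (le_of_eq ?_))
    field_simp
  have hνY : ∀ j, ν (Y j) ≤ ENNReal.ofReal (T * S.card / (8 * (n + 1))) := by
    intro j
    have h2 := wm_cheb S hS1 b T hT0.le (mid (a j) (m + 1) M')
      (continuous_mid _ _ _) (ε / 4) _ (by positivity) (hTm j T (hTTm j))
    refine h2.trans (ENNReal.ofReal_le_ofReal ?_)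
    rw [div_le_iff₀ (by positivity)]
    have h3 : S.card * (D ^ 2 * ∑ p ∈ Ico (m + 1) M', 1 / (p : ℝ) ^ 2) + D ^ 2 * κ ≤
        2 * (S.card * (D ^ 2 * κ)) := by
      have h4 : S.card * (D ^ 2 * ∑ p ∈ Ico (m + 1) M', 1 / (p : ℝ) ^ 2) ≤
          S.card * (D ^ 2 * κ) := by
        refine mul_le_mul_of_nonneg_left ?_ hcS.le
        exact mul_le_mul_of_nonneg_left (htl M') (by positivity)
      have h5 : D ^ 2 * κ ≤ S.card * (D ^ 2 * κ) := le_mul_of_one_le_left (by positivity) hcS1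
      linarith
    refine (mul_le_mul_of_nonneg_left h3 hT0.le).trans ?_
    have h6 : D ^ 2 * κ = (ε / 4) ^ 2 / (32 * (n + 1)) := by
      rw [hκ]
      field_simp
    rw [h6]
    have h7 : T * (2 * (S.card * ((ε / 4) ^ 2 / (32 * (n + 1))))) =
        (T * S.card / (8 * (n + 1)) * (ε / 4) ^ 2) / 2 := by
      field_simp
      ring
    rw [h7]
    have h8 : 0 ≤ T * S.card / (8 * (n + 1)) * (ε / 4) ^ 2 := by positivity
    linarith
  have hνX : ∀ j, ν (X j) ≤ ENNReal.ofReal (T * S.card / (8 * (n + 1))) := by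
    intro j
    refine (wm_le S hS1 b hb T (X j)).trans ?_
    have h1 : volume (X j ∩ Set.Ioc 0 T) ≤
        ENNReal.ofReal (1 / (8 * (n + 1) * S.card) * T) :=
      (measure_mono Set.inter_subset_left).trans (hJ₀ j J (hJ1 j) T hT1)
    refine (mul_le_mul' le_rfl h1).trans ?_
    rw [← ENNReal.ofReal_mul (by positivity)]
    refine ENNReal.ofReal_le_ofReal (le_of_eq ?_)
    field_simp
  have hsumZ : ν (⋃ p ∈ ZU.pr m, Z p) ≤ ENNReal.ofReal (T * S.card / 8) := by
    refine (measure_biUnion_finset_le _ _).trans ((sum_le_sum hνZ).trans ?_)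
    rw [sum_const, nsmul_eq_mul, ← ENNReal.ofReal_natCast,
      ← ENNReal.ofReal_mul (Nat.cast_nonneg _)]
    refine ENNReal.ofReal_le_ofReal ?_
    have h1 : ((ZU.pr m).card : ℝ) ≤ (m : ℝ) + 1 := by
      have : (ZU.pr m).card ≤ m := by
        unfold ZU.pr
        refine (card_filter_le _ _).trans ?_
        rw [Nat.card_Icc]
        omega
      have h' : ((ZU.pr m).card : ℝ) ≤ m := by exact_mod_cast this
      linarith
    calc ((ZU.pr m).card : ℝ) * (T * S.card / (8 * (m + 1)))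
        ≤ ((m : ℝ) + 1) * (T * S.card / (8 * (m + 1))) :=
          mul_le_mul_of_nonneg_right h1 (by positivity)
      _ = T * S.card / 8 := by field_simp
  have hfin : ∀ U : Fin n → Set ℝ, (∀ j, ν (U j) ≤ ENNReal.ofReal (T * S.card / (8 * (n + 1)))) →
      ν (⋃ j, U j) ≤ ENNReal.ofReal (T * S.card / 8) := by
    intro U hU
    refine (measure_iUnion_le _).trans ?_
    rw [tsum_fintype]
    refine (sum_le_sum fun j _ => hU j).trans ?_
    rw [sum_const, card_univ, Fintype.card_fin, nsmul_eq_mul, ← ENNReal.ofReal_natCast,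
      ← ENNReal.ofReal_mul (Nat.cast_nonneg _)]
    refine ENNReal.ofReal_le_ofReal ?_
    calc (n : ℝ) * (T * S.card / (8 * (n + 1))) ≤ ((n : ℝ) + 1) * (T * S.card / (8 * (n + 1))) :=
          mul_le_mul_of_nonneg_right (by linarith) (by positivity)
      _ = T * S.card / 8 := by field_simp
  have hsumY := hfin Y hνY
  have hsumX := hfin X hνX
  have htot : ENNReal.ofReal (7 / 8 * T * S.card) ≤ ν G + ENNReal.ofReal (3 / 8 * T * S.card) := by
    refine hν1.trans ((measure_mono hcover).trans ?_)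
    refine (measure_union_le _ _).trans (add_le_add le_rfl ?_)
    refine (measure_union_le _ _).trans ?_
    have h1 : ENNReal.ofReal (3 / 8 * T * S.card) = ENNReal.ofReal (T * S.card / 8) +
        (ENNReal.ofReal (T * S.card / 8) + ENNReal.ofReal (T * S.card / 8)) := by
      rw [← ENNReal.ofReal_add (by positivity) (by positivity),
        ← ENNReal.ofReal_add (by positivity) (by positivity)]
      congr 1
      ring
    rw [h1]
    refine add_le_add hsumZ ((measure_union_le _ _).trans (add_le_add hsumY hsumX))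
  have hνG : ENNReal.ofReal (1 / 2 * T * S.card) ≤ ν G := by
    have h1 : ENNReal.ofReal (7 / 8 * T * S.card) =
        ENNReal.ofReal (1 / 2 * T * S.card) + ENNReal.ofReal (3 / 8 * T * S.card) := by
      rw [← ENNReal.ofReal_add (by positivity) (by positivity)]
      congr 1
      ring
    rw [h1] at htot
    exact (ENNReal.add_le_add_iff_right ENNReal.ofReal_ne_top).1 htot
  have hfinal := hνG.trans (wm_le S hS1 b hb T G)
  have hGT : G ∩ Set.Ioc 0 T = G := Set.inter_eq_left.2 fun τ hτ => hτ.1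
  rw [hGT] at hfinal
  have h1 : ENNReal.ofReal (1 / 2 * T * S.card) =
      ENNReal.ofReal ((S.card : ℝ) ^ 2) * ENNReal.ofReal (1 / (2 * S.card) * T) := by
    rw [← ENNReal.ofReal_mul (by positivity)]
    congr 1
    field_simp
  rw [h1] at hfinal
  have h2 : ENNReal.ofReal ((S.card : ℝ) ^ 2) ≠ 0 :=
    (ENNReal.ofReal_pos.2 (by positivity)).ne'
  exact (ENNReal.mul_le_mul_iff_right h2 ENNReal.ofReal_ne_top).1 hfinal

end Pool.Agent.N903.ED
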